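import Pool.Agent.H64.ISO.Fib

/-!
# The zero set of `P` is contractible
-/

set_option autoImplicit false

namespace Pool.H64.ISO

open MvPolynomial Topology

/-- the zero set -/
abbrev Z0 : Type := {v : Fin 3 → ℂ // eval v P = 0}

/-- the function `s` on the zero set with `s^2 = y`, `s^5 = Q` -/
noncomputable def sq (v : Fin 3 → ℂ) : ℂ := if v 2 = 0 then 0 else Q v / (v 2) ^ 2

theorem sq_sq {v : Fin 3 → ℂ} (hv : eval v P = 0) : (sq v) ^ 2 = v 2 := by
  rw [eval_P] at hv
  unfold sq
  by_cases h : v 2 = 0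
  · simp [h]
  · rw [if_neg h]
    field_simp
    linear_combination -hv

theorem sq_mul {v : Fin 3 → ℂ} (hv : eval v P = 0) : sq v * (v 2) ^ 2 = Q v := by
  rw [eval_P] at hv
  unfold sq
  by_cases h : v 2 = 0
  · rw [if_pos h]
    rw [h] at hv
    have h1 : Q v ^ 2 = 0 := by linear_combination -hv
    rw [pow_eq_zero_iff (by norm_num)] at h1
    rw [h1, zero_mul]
  · rw [if_neg h]
    field_simp

theorem continuous_Q : Continuous Q := by
  unfold Q
  fun_prop

theorem continuous_sq : Continuous (fun v : Z0 => sq v.1) := by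
  rw [continuous_iff_continuousAt]
  intro v
  have hc2 : Continuous (fun w : Z0 => w.1 2) :=
    (continuous_apply 2).comp continuous_subtype_val
  by_cases h : v.1 2 = 0
  · have h1 : ∀ w : Z0, ‖sq w.1‖ = √‖w.1 2‖ := by
      intro w
      have h2 := congrArg norm (sq_sq w.2)
      rw [norm_pow] at h2
      rw [← h2, Real.sqrt_sq (norm_nonneg _)]
    have h0 : sq v.1 = 0 := by
      unfold sq
      rw [if_pos h]
    show Filter.Tendsto (fun w : Z0 => sq w.1) (𝓝 v) (𝓝 (sq v.1))
    rw [h0, tendsto_zero_iff_norm_tendsto_zero]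
    have h3 : Continuous (fun w : Z0 => √‖w.1 2‖) := Real.continuous_sqrt.comp hc2.norm
    have h4 := h3.tendsto v
    simp only [h, norm_zero, Real.sqrt_zero] at h4
    exact h4.congr (fun w => (h1 w).symm)
  · have h1 : ∀ᶠ w : Z0 in 𝓝 v, w.1 2 ≠ 0 := hc2.continuousAt.eventually_ne h
    have h2 : ContinuousAt (fun w : Z0 => Q w.1 / (w.1 2) ^ 2) v :=
      ContinuousAt.div (continuous_Q.comp continuous_subtype_val).continuousAt
        (hc2.pow 2).continuousAt (pow_ne_zero 2 h)
    refine h2.congr ?_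
    filter_upwards [h1] with w hw
    unfold sq
    rw [if_neg hw]

theorem eval_homotopy {v : Fin 3 → ℂ} (hv : eval v P = 0) (t : ℂ) :
    eval ![v 0 - t * sq v, (1 - t) * v 1, (1 - t) ^ 2 * v 2] P = 0 := by
  have h1 := sq_mul hv
  have h2 : Q ![v 0 - t * sq v, (1 - t) * v 1, (1 - t) ^ 2 * v 2] = (1 - t) ^ 5 * Q v := by
    simp only [Q, Matrix.cons_val_zero, Matrix.cons_val_one, Matrix.cons_val] at h1 ⊢
    linear_combination (-(1 - t) ^ 4 * t) * h1
  rw [eval_P] at hv ⊢
  rw [h2]
  simp only [Matrix.cons_val]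
  linear_combination (1 - t) ^ 10 * hv

theorem eval_axis (w : ℂ) : eval ![w, 0, 0] P = 0 := by
  rw [eval_P]
  simp [Q]

theorem cont_vec3 {Y : Type*} [TopologicalSpace Y] {a b c : Y → ℂ}
    (ha : Continuous a) (hb : Continuous b) (hc : Continuous c) :
    Continuous (fun y => (![a y, b y, c y] : Fin 3 → ℂ)) := by
  refine continuous_pi fun i => ?_
  fin_cases i
  · simpa using ha
  · simpa using hb
  · simpa using hc

theorem contr : ContractibleSpace {v : Fin 3 → ℂ // eval v P = 0} := by
  rw [contractible_iff_id_nullhomotopic]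
  have hz : eval (0 : Fin 3 → ℂ) P = 0 := by
    have := eval_axis 0
    rw [show (![0, 0, 0] : Fin 3 → ℂ) = 0 from by ext i; fin_cases i <;> rfl] at this
    exact this
  refine ⟨⟨0, hz⟩, ?_⟩
  have hs := continuous_sq
  have cc : ∀ i : Fin 3, Continuous (fun v : Z0 => v.1 i) := fun i =>
    (continuous_apply i).comp continuous_subtype_val
  let r : C(Z0, Z0) := ⟨fun v => ⟨![v.1 0 - sq v.1, 0, 0], eval_axis _⟩,
    Continuous.subtype_mk (cont_vec3 ((cc 0).sub hs) continuous_const continuous_const) _⟩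
  have ct : Continuous (fun tv : unitInterval × Z0 => (((tv.1 : unitInterval) : ℝ) : ℂ)) :=
    Complex.continuous_ofReal.comp (continuous_subtype_val.comp continuous_fst)
  have c2 : ∀ i : Fin 3, Continuous (fun tv : unitInterval × Z0 => tv.2.1 i) := fun i =>
    (cc i).comp continuous_snd
  have cs : Continuous (fun tv : unitInterval × Z0 => sq tv.2.1) := hs.comp continuous_snd
  have h1 : (ContinuousMap.id Z0).Homotopic r := by
    refine ⟨⟨⟨fun tv => ⟨![tv.2.1 0 - (((tv.1 : unitInterval) : ℝ) : ℂ) * sq tv.2.1,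
      (1 - (((tv.1 : unitInterval) : ℝ) : ℂ)) * tv.2.1 1,
      (1 - (((tv.1 : unitInterval) : ℝ) : ℂ)) ^ 2 * tv.2.1 2], eval_homotopy tv.2.2 _⟩, ?_⟩,
      ?_, ?_⟩⟩
    · exact Continuous.subtype_mk (cont_vec3 ((c2 0).sub (ct.mul cs))
        ((continuous_const.sub ct).mul (c2 1)) (((continuous_const.sub ct).pow 2).mul (c2 2))) _
    · intro v
      apply Subtype.ext
      funext i
      fin_cases i <;> simp
    · intro v
      apply Subtype.ext
      funext i
      fin_cases i <;> simp [r]
  have h2 : r.Homotopic (ContinuousMap.const _ ⟨0, hz⟩) := by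
    refine ⟨⟨⟨fun tv => ⟨![(1 - (((tv.1 : unitInterval) : ℝ) : ℂ)) * (tv.2.1 0 - sq tv.2.1),
      0, 0], eval_axis _⟩, ?_⟩, ?_, ?_⟩⟩
    · exact Continuous.subtype_mk (cont_vec3 ((continuous_const.sub ct).mul ((c2 0).sub cs))
        continuous_const continuous_const) _
    · intro v
      apply Subtype.ext
      funext i
      fin_cases i <;> simp [r]
    · intro v
      apply Subtype.ext
      funext i
      fin_cases i <;> simp
  exact h1.trans h2

end Pool.H64.ISO
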