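import Pool.Agent.H64.ISO.Fib

/-!
# `P` is irreducible

`P` is a quadratic polynomial in `z` over `ℂ[x, y]`, with discriminant `4 y^9` and content `1`.
-/

set_option autoImplicit false

namespace Pool.H64.ISO

open MvPolynomial

/-- the ring `ℂ[x, y]`, `x = X 0`, `y = X 1` -/
abbrev R2 : Type := MvPolynomial (Fin 2) ℂ

/-- `y x^2 + x^4` -/
noncomputable def rr : R2 := X 1 * X 0 ^ 2 + X 0 ^ 4

noncomputable def F : Polynomial R2 :=
  Polynomial.C (-(X 1 ^ 4)) * Polynomial.X ^ 2 + Polynomial.C (-(2 * X 1 ^ 2 * rr)) * Polynomial.X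
    + Polynomial.C (X 1 ^ 5 - rr ^ 2)

theorem fse_P : finSuccEquiv ℂ 2 P = F := by
  have e0 : finSuccEquiv ℂ 2 (X 0) = Polynomial.X := finSuccEquiv_X_zero
  have e1 : finSuccEquiv ℂ 2 (X 1) = Polynomial.C (X 0) := finSuccEquiv_X_succ (j := 0)
  have e2 : finSuccEquiv ℂ 2 (X 2) = Polynomial.C (X 1) := finSuccEquiv_X_succ (j := 1)
  simp only [P, map_sub, map_pow, map_add, map_mul, e0, e1, e2, F, rr, map_neg]
  have e3 : (Polynomial.C (2 : R2)) = 2 := rfl
  rw [e3]
  ring

theorem y4_ne : (-(X 1 ^ 4) : R2) ≠ 0 := neg_ne_zero.mpr (pow_ne_zero 4 (X_ne_zero 1))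

theorem natDegree_F : F.natDegree = 2 := Polynomial.natDegree_quadratic y4_ne

theorem quad_coeff (A B D : R2) :
    (Polynomial.C A * Polynomial.X ^ 2 + Polynomial.C B * Polynomial.X + Polynomial.C D).coeff 2 = A ∧
    (Polynomial.C A * Polynomial.X ^ 2 + Polynomial.C B * Polynomial.X + Polynomial.C D).coeff 1 = B ∧
    (Polynomial.C A * Polynomial.X ^ 2 + Polynomial.C B * Polynomial.X + Polynomial.C D).coeff 0 = D
    := by
  simp only [Polynomial.coeff_add, Polynomial.coeff_C_mul_X_pow, Polynomial.coeff_C_mul_X,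
    Polynomial.coeff_C]
  norm_num

theorem coeff2 : F.coeff 2 = -(X 1 ^ 4) := (quad_coeff _ _ _).1

theorem coeff1 : F.coeff 1 = -(2 * X 1 ^ 2 * rr) := (quad_coeff _ _ _).2.1

theorem coeff0 : F.coeff 0 = X 1 ^ 5 - rr ^ 2 := (quad_coeff _ _ _).2.2

theorem content {k : R2} (h2 : k ∣ -(X 1 ^ 4)) (h0 : k ∣ X 1 ^ 5 - rr ^ 2) : IsUnit k := by
  rw [dvd_neg] at h2
  have hp : Prime (X 1 : R2) := X_prime
  obtain ⟨i, _, hi⟩ := (dvd_prime_pow hp 4).mp h2
  rcases Nat.eq_zero_or_pos i with h | h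
  · subst h
    rw [pow_zero] at hi
    exact hi.symm.isUnit isUnit_one
  · exfalso
    have h3 : (X 1 : R2) ∣ X 1 ^ 5 - rr ^ 2 :=
      ((dvd_pow_self (X 1 : R2) h.ne').trans hi.symm.dvd).trans h0
    obtain ⟨w, hw⟩ := h3
    have h4 := congrArg (eval (![1, 0] : Fin 2 → ℂ)) hw
    simp [rr] at h4

theorem no_split {a1 a0 b1 b0 : R2} (h2 : a1 * b1 = -(X 1 ^ 4))
    (h1 : a1 * b0 + a0 * b1 = -(2 * X 1 ^ 2 * rr)) (h0 : a0 * b0 = X 1 ^ 5 - rr ^ 2) : False := by
  have hD : (a1 * b0 - a0 * b1) ^ 2 = 4 * X 1 ^ 9 := by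
    have e : (a1 * b0 - a0 * b1) ^ 2 = (a1 * b0 + a0 * b1) ^ 2 - 4 * (a1 * b1) * (a0 * b0) := by
      ring
    rw [e, h1, h2, h0]
    ring
  have h3 := congrArg (aeval (![0, Polynomial.X] : Fin 2 → Polynomial ℂ)) hD
  simp only [map_pow, map_mul, aeval_X, Matrix.cons_val_one, map_ofNat, Matrix.cons_val_zero] at h3
  have h4 := congrArg Polynomial.natDegree h3
  have e4 : (4 : Polynomial ℂ) = Polynomial.C 4 := (map_ofNat Polynomial.C 4).symm
  rw [Polynomial.natDegree_pow, e4, Polynomial.natDegree_C_mul_X_pow 9 (4 : ℂ) (by norm_num)] at h4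
  omega

theorem irreducible_F : Irreducible F := by
  have hF0 : F ≠ 0 := by
    intro h
    have := natDegree_F
    rw [h] at this
    simp at this
  have key : ∀ a b : Polynomial R2, F = a * b → a.natDegree = 0 → IsUnit a := by
    intro a b hab ha
    obtain ⟨k, hk⟩ : ∃ k, a = Polynomial.C k := ⟨a.coeff 0, Polynomial.eq_C_of_natDegree_eq_zero ha⟩
    have hdvd : ∀ n, k ∣ F.coeff n := by
      intro n
      rw [hab, hk, Polynomial.coeff_C_mul]
      exact dvd_mul_right _ _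
    rw [hk]
    exact Polynomial.isUnit_C.mpr (content (coeff2 ▸ hdvd 2) (coeff0 ▸ hdvd 0))
  refine ⟨fun hu => ?_, fun a b hab => ?_⟩
  · have := Polynomial.natDegree_eq_zero_of_isUnit hu
    rw [natDegree_F] at this
    omega
  · have ha0 : a ≠ 0 := by
      rintro rfl
      rw [zero_mul] at hab
      exact hF0 hab
    have hb0 : b ≠ 0 := by
      rintro rfl
      rw [mul_zero] at hab
      exact hF0 hab
    have hdeg : a.natDegree + b.natDegree = 2 := by
      rw [← Polynomial.natDegree_mul ha0 hb0, ← hab, natDegree_F]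
    by_cases h1 : a.natDegree = 0
    · exact Or.inl (key a b hab h1)
    by_cases h2 : b.natDegree = 0
    · exact Or.inr (key b a (by rw [hab, mul_comm]) h2)
    exfalso
    have d1 : a.natDegree ≤ 1 := by omega
    have d2 : b.natDegree ≤ 1 := by omega
    obtain ⟨a1, a0, ha⟩ := Polynomial.exists_eq_X_add_C_of_natDegree_le_one d1
    obtain ⟨b1, b0, hb⟩ := Polynomial.exists_eq_X_add_C_of_natDegree_le_one d2
    have e : F = Polynomial.C (a1 * b1) * Polynomial.X ^ 2
        + Polynomial.C (a1 * b0 + a0 * b1) * Polynomial.X + Polynomial.C (a0 * b0) := by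
      rw [hab, ha, hb]
      simp only [map_mul, map_add]
      ring
    have c2 := coeff2
    have c1 := coeff1
    have c0 := coeff0
    rw [e] at c2 c1 c0
    rw [(quad_coeff _ _ _).1] at c2
    rw [(quad_coeff _ _ _).2.1] at c1
    rw [(quad_coeff _ _ _).2.2] at c0
    exact no_split c2 c1 c0

theorem irreducible_P : Irreducible P := by
  have h := irreducible_F
  rw [← fse_P] at h
  exact (MulEquiv.irreducible_iff (finSuccEquiv ℂ 2)).mp h

end Pool.H64.ISO
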