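import Pool.Agent.H64.ISO.Final
import Pool.Agent.H64.ISO.Contr
import Pool.Agent.H64.ISO.Irr

/-!
# Smoothness, and isomorphisms of the coordinate algebras
-/

set_option autoImplicit false

namespace Pool.H64.ISO

open MvPolynomial

/-- the fibres over `c ≠ 0` are smooth -/
theorem smooth (v : Fin 3 → ℂ) (hv : eval v P ≠ 0) : ∃ i, eval v (pderiv i P) ≠ 0 := by
  by_contra hcon
  push Not at hcon
  have h0 := hcon 0
  have h1 := hcon 1
  have h2 := hcon 2
  simp only [P, map_sub, Derivation.leibniz_pow, map_add, Derivation.leibniz, pderiv_X,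
    smul_eq_mul, nsmul_eq_mul, map_mul, map_pow, eval_X, map_natCast] at h0 h1 h2
  simp at h0 h1 h2
  apply hv
  rw [eval_P]
  unfold Q
  have hq : v 2 ^ 2 * v 0 + v 2 * v 1 ^ 2 + v 1 ^ 4 = 0 := by
    rcases h0 with h | h
    · exact h
    · rcases h1 with h' | h'
      · exact h'
      · rw [h] at h' ⊢
        have h3 : v 1 ^ 3 = 0 := by linear_combination h' / 4
        rw [pow_eq_zero_iff (by norm_num)] at h3
        rw [h3]
        ring
  rw [hq] at h2 ⊢
  have h4 : v 2 ^ 4 = 0 := by linear_combination h2 / 5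
  rw [pow_eq_zero_iff (by norm_num)] at h4
  rw [h4]
  ring

/-- an isomorphism of the coordinate algebras gives an isomorphism of the fibres -/
theorem alg_iso {c d : ℂ} (e : (MvPolynomial (Fin 3) ℂ ⧸ Ideal.span {P - C c}) ≃ₐ[ℂ]
    (MvPolynomial (Fin 3) ℂ ⧸ Ideal.span {P - C d})) : ∃ f g, Iso c d f g := by
  have key : ∀ {c d : ℂ} (e : (MvPolynomial (Fin 3) ℂ ⧸ Ideal.span {P - C c}) ≃ₐ[ℂ]
      (MvPolynomial (Fin 3) ℂ ⧸ Ideal.span {P - C d})) (f g : Fin 3 → MvPolynomial (Fin 3) ℂ),
      (∀ i, Ideal.Quotient.mk _ (f i) = e.symm (Ideal.Quotient.mk _ (X i))) →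
      (∀ i, Ideal.Quotient.mk _ (g i) = e (Ideal.Quotient.mk _ (X i))) →
      ∀ v : Fin 3 → ℂ, eval v P = d → eval (ap g v) P = c ∧ ap f (ap g v) = v := by
    intro c d e f g hf hg v hv
    let ev : (MvPolynomial (Fin 3) ℂ ⧸ Ideal.span {P - C d}) →ₐ[ℂ] ℂ :=
      Ideal.Quotient.liftₐ _ (aeval v) (by
        intro a ha
        obtain ⟨b, rfl⟩ := Ideal.mem_span_singleton'.mp ha
        rw [map_mul, map_sub, aeval_eq_eval, eval_C, hv, sub_self, mul_zero])
    have hev : ∀ h, ev (Ideal.Quotient.mk _ h) = eval v h := by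
      intro h
      rfl
    have hcomp : ∀ h, ev (e (Ideal.Quotient.mk _ h)) = eval (ap g v) h := by
      have : (ev.comp e.toAlgHom).comp (Ideal.Quotient.mkₐ ℂ (Ideal.span {P - C c}))
          = aeval (ap g v) := by
        apply MvPolynomial.algHom_ext
        intro i
        simp only [AlgHom.comp_apply, aeval_X]
        have e1 : (Ideal.Quotient.mkₐ ℂ (Ideal.span {P - C c})) (X i)
          = Ideal.Quotient.mk _ (X i) := rfl
        rw [e1]
        have e2 : e.toAlgHom (Ideal.Quotient.mk _ (X i)) = e (Ideal.Quotient.mk _ (X i)) := rfl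
        rw [e2, ← hg i, hev]
        rfl
      intro h
      have := DFunLike.congr_fun this h
      rw [aeval_eq_eval] at this
      exact this
    constructor
    · have h1 := hcomp (P - C c)
      have h2 : Ideal.Quotient.mk (Ideal.span {P - C c}) (P - C c) = 0 :=
        Ideal.Quotient.eq_zero_iff_mem.mpr (Ideal.mem_span_singleton_self _)
      rw [h2, map_zero, map_zero, map_sub, eval_C] at h1
      linear_combination -h1
    · funext i
      show eval (ap g v) (f i) = v i
      rw [← hcomp, hf i, AlgEquiv.apply_symm_apply, hev, eval_X]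
  choose f hf using fun i : Fin 3 =>
    Ideal.Quotient.mk_surjective (I := Ideal.span {P - C c}) (e.symm (Ideal.Quotient.mk _ (X i)))
  choose g hg using fun i : Fin 3 =>
    Ideal.Quotient.mk_surjective (I := Ideal.span {P - C d}) (e (Ideal.Quotient.mk _ (X i)))
  exact ⟨f, g, key e.symm g f (fun i => by rw [hg i]; rfl) hf, key e f g hf hg⟩

end Pool.H64.ISO
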