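import Pool.Agent.H64.ISO.Fib

/-!
# An isomorphism of fibres covers `(a, b) ↦ (α a, γ b)`
-/

set_option autoImplicit false

namespace Pool.H64.ISO

open MvPolynomial

theorem den_ne {c x a b : ℂ} (hx : x ^ 8 = -c) (hab : a ^ 5 - b ^ 2 = c) (ha : a ≠ 0) :
    b + x ^ 4 ≠ 0 := by
  intro h
  apply ha
  have h1 : a ^ 5 = 0 := by linear_combination hab + hx + (b - x ^ 4) * h
  exact pow_eq_zero_iff (by norm_num) |>.mp h1

theorem sec_eq {c x a b : ℂ} (hx0 : x ≠ 0) (hx : x ^ 8 = -c) (hab : a ^ 5 - b ^ 2 = c)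
    (ha : a ≠ 0) : sec x a b = E a b (x - a / (4 * x)) := by
  have h2 : sec x a b 2 = a := by simp [sec]
  have h1 : sec x a b 1 = x - a / (4 * x) := by simp [sec]
  have h := E_eq (v := sec x a b) (by rw [h2]; exact ha)
  rw [h, h2, h1, Q_sec hx0 hx hab (den_ne hx hab ha)]

theorem Q_zero {v : Fin 3 → ℂ} (h : v 2 = 0) : Q v = (v 1) ^ 4 := by
  simp only [Q, h]
  ring

theorem ne_of_pow {c x : ℂ} (hc : c ≠ 0) (hx : x ^ 8 = -c) : x ≠ 0 := by
  rintro rfl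
  apply hc
  linear_combination hx

/-- polynomial functions which are constant on the lines come from the curve -/
theorem base_fun {c : ℂ} (hc : c ≠ 0) (U : MvPolynomial (Fin 3) ℂ)
    (h1 : ∀ a b : ℂ, a ^ 5 - b ^ 2 = c → a ≠ 0 → ∀ t t',
      eval (E a b t) U = eval (E a b t') U)
    (h2 : ∀ x : ℂ, x ^ 8 = -c → ∀ z z', eval ![z, x, 0] U = eval ![z', x, 0] U) :
    ∃ χ : ℂ → ℂ → ℂ, Reg c χ ∧ ∀ v : Fin 3 → ℂ, eval v P = c → eval v U = χ (v 2) (Q v) := by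
  obtain ⟨β, hβ⟩ := exists_sq (-c)
  have hβ0 : β ≠ 0 := by
    rintro rfl
    apply hc
    linear_combination hβ
  obtain ⟨x, hx⟩ := IsAlgClosed.exists_pow_nat_eq β (n := 4) (by norm_num)
  obtain ⟨x', hx'⟩ := IsAlgClosed.exists_pow_nat_eq (-β) (n := 4) (by norm_num)
  have hx8 : x ^ 8 = -c := by rw [← hβ, ← hx]; ring
  have hx8' : x' ^ 8 = -c := by rw [← hβ, ← neg_sq β, ← hx']; ring
  have hx0 := ne_of_pow hc hx8
  have hx0' := ne_of_pow hc hx8'
  obtain ⟨N, Φ, rΦ, hΦ⟩ := sec_reg (c := c) (x := x) U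
  obtain ⟨M, Ψ, rΨ, hΨ⟩ := sec_reg (c := c) (x := x') U
  obtain ⟨χ, rχ, hχ⟩ := glue (c := c) hβ0 (φ := fun a b => eval (E a b 0) U) (N := N) (M := M)
    rΦ rΨ (fun a b hab ha => by
      have e := hΦ a b hab (den_ne hx8 hab ha)
      rw [sec_eq hx0 hx8 hab ha, h1 a b hab ha _ 0, hx] at e
      exact e) (fun a b hab ha => by
      have e := hΨ a b hab (den_ne hx8' hab ha)
      rw [sec_eq hx0' hx8' hab ha, h1 a b hab ha _ 0, hx'] at e
      rw [sub_eq_add_neg]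
      exact e)
  refine ⟨χ, rχ, fun v hv => ?_⟩
  by_cases h0 : v 2 = 0
  · have hy : (v 1) ^ 8 = -c := by
      rw [eval_P, h0] at hv
      simp only [Q, h0] at hv
      linear_combination -hv
    have hy0 := ne_of_pow hc hy
    have hQ : Q v = (v 1) ^ 4 := Q_zero h0
    obtain ⟨K, Θ, rΘ, hΘ⟩ := sec_reg (c := c) (x := v 1) U
    have e1 := Reg.eq_of_ne rΘ (rχ.mul (((Reg.snd c).add (Reg.const c ((v 1) ^ 4))).pow K))
      (fun a b hab ha => by
        have e := hΘ a b hab (den_ne hy hab ha)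
        rw [sec_eq hy0 hy hab ha, h1 a b hab ha _ 0] at e
        rw [← e, ← hχ a b hab ha]) 0 ((v 1) ^ 4) (by linear_combination -hy)
    have hne : (v 1) ^ 4 + (v 1) ^ 4 ≠ 0 := by
      rw [← two_mul]
      exact mul_ne_zero two_ne_zero (pow_ne_zero 4 hy0)
    have e2 := hΘ 0 ((v 1) ^ 4) (by linear_combination -hy) hne
    rw [e1] at e2
    have e3 := mul_right_cancel₀ (pow_ne_zero K hne) e2
    have e4 : sec (v 1) 0 ((v 1) ^ 4) = ![1 / 8, v 1, 0] := by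
      simp [sec]
    rw [e4] at e3
    rw [hQ, h0, ← e3]
    conv_lhs => rw [eq_vec v, h0]
    exact h2 (v 1) hy _ _
  · have hab : (v 2) ^ 5 - (Q v) ^ 2 = c := by rw [← eval_P, hv]
    rw [← hχ (v 2) (Q v) hab h0]
    conv_lhs => rw [E_eq h0]
    exact h1 _ _ hab h0 _ _

theorem poly_M (x : ℂ) (h : MvPolynomial (Fin 3) ℂ) :
    ∃ R : Polynomial ℂ, ∀ t, R.eval t = eval ![t, x, 0] h := by
  refine ⟨MvPolynomial.aeval ![Polynomial.X, Polynomial.C x, 0] h, fun t => ?_⟩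
  rw [eval_curve]
  congr 1
  congr 1
  funext i
  fin_cases i <;> simp

theorem eval_M {c x : ℂ} (hx : x ^ 8 = -c) (t : ℂ) : eval ![t, x, 0] P = c := by
  rw [eval_P]
  simp only [Q, Matrix.cons_val_zero, Matrix.cons_val_one, Matrix.cons_val]
  linear_combination -hx

/-- `(y, Q)` is constant on the images of the special lines -/
theorem line_const0 {c d : ℂ} (hd : d ≠ 0) {f : Fin 3 → MvPolynomial (Fin 3) ℂ}
    (hf : MapsFib c d f) {x : ℂ} (hx : x ^ 8 = -c) (t t' : ℂ) :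
    ap f ![t, x, 0] 2 = ap f ![t', x, 0] 2 ∧ Q (ap f ![t, x, 0]) = Q (ap f ![t', x, 0]) := by
  obtain ⟨U, hU⟩ := poly_M x (f 2)
  obtain ⟨V, hV⟩ := poly_M x (f 2 ^ 2 * f 0 + f 2 * f 1 ^ 2 + f 1 ^ 4)
  have hV' : ∀ t, V.eval t = Q (ap f ![t, x, 0]) := by
    intro t
    rw [hV]
    simp [Q, ap]
  have key : U ^ 5 - V ^ 2 = Polynomial.C d := by
    apply Polynomial.funext
    intro t
    have h1 := hf ![t, x, 0] (eval_M hx t)
    rw [eval_P, ← hV'] at h1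
    have h2 : ap f ![t, x, 0] 2 = U.eval t := (hU t).symm
    rw [h2] at h1
    simp only [Polynomial.eval_sub, Polynomial.eval_pow, Polynomial.eval_C]
    exact h1
  obtain ⟨⟨k, hk⟩, ⟨l, hl⟩⟩ := no_curve hd key
  have e1 : ∀ t, ap f ![t, x, 0] 2 = k := by
    intro t
    have : ap f ![t, x, 0] 2 = U.eval t := (hU t).symm
    rw [this, hk, Polynomial.eval_C]
  have e2 : ∀ t, Q (ap f ![t, x, 0]) = l := by
    intro t
    rw [← hV', hl, Polynomial.eval_C]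
  exact ⟨by rw [e1, e1], by rw [e2, e2]⟩

/-- a map between fibres induces a map between the curves -/
theorem base_map {c d : ℂ} (hc : c ≠ 0) (hd : d ≠ 0) {f : Fin 3 → MvPolynomial (Fin 3) ℂ}
    (hf : MapsFib c d f) : ∃ χ ψ : ℂ → ℂ → ℂ, Reg c χ ∧ Reg c ψ ∧
      ∀ v : Fin 3 → ℂ, eval v P = c → ap f v 2 = χ (v 2) (Q v) ∧ Q (ap f v) = ψ (v 2) (Q v) := by
  have hQ : ∀ v, eval v (f 2 ^ 2 * f 0 + f 2 * f 1 ^ 2 + f 1 ^ 4) = Q (ap f v) := by
    intro v
    simp [Q, ap]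
  obtain ⟨χ, r1, h1⟩ := base_fun hc (f 2)
    (fun a b hab ha t t' => (line_const hd hf ha hab t t').1)
    (fun x hx z z' => (line_const0 hd hf hx z z').1)
  obtain ⟨ψ, r2, h2⟩ := base_fun hc (f 2 ^ 2 * f 0 + f 2 * f 1 ^ 2 + f 1 ^ 4)
    (fun a b hab ha t t' => by rw [hQ, hQ]; exact (line_const hd hf ha hab t t').2)
    (fun x hx z z' => by rw [hQ, hQ]; exact (line_const0 hd hf hx z z').2)
  exact ⟨χ, ψ, r1, r2, fun v hv => ⟨h1 v hv, by rw [← hQ, h2 v hv]⟩⟩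

theorem const_of_pow4 {R : Polynomial ℂ} {k : ℂ} (h : ∀ t, R.eval t ^ 4 = k) (t t' : ℂ) :
    R.eval t = R.eval t' := by
  have h1 : R ^ 4 = Polynomial.C k := by
    apply Polynomial.funext
    intro t
    rw [Polynomial.eval_pow, h, Polynomial.eval_C]
  have h2 := congrArg Polynomial.natDegree h1
  rw [Polynomial.natDegree_pow, Polynomial.natDegree_C] at h2
  have h3 : R.natDegree = 0 := by omega
  rw [Polynomial.eq_C_of_natDegree_eq_zero h3]
  simp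

/-- special lines go to special lines -/
theorem special {c d : ℂ} (hc : c ≠ 0) (hd : d ≠ 0) {f g : Fin 3 → MvPolynomial (Fin 3) ℂ}
    (h : Iso c d f g) (v : Fin 3 → ℂ) (hv : eval v P = c) (h0 : v 2 = 0) : ap f v 2 = 0 := by
  by_contra ha
  have hy : (v 1) ^ 8 = -c := by
    rw [eval_P, h0] at hv
    simp only [Q, h0] at hv
    linear_combination -hv
  have hy0 := ne_of_pow hc hy
  obtain ⟨χ, ψ, _, _, hm⟩ := base_map hc hd h.maps
  have hv' : eval ![0, -(v 1), 0] P = c := eval_M (by rw [← hy]; ring) 0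
  have hQ : Q ![0, -(v 1), 0] = Q v := by
    simp only [Q, h0, Matrix.cons_val_zero, Matrix.cons_val_one, Matrix.cons_val]
    ring
  have e2 : (![0, -(v 1), 0] : Fin 3 → ℂ) 2 = v 2 := by simp [h0]
  have m1 := hm v hv
  have m2 := hm _ hv'
  rw [hQ, e2] at m2
  have k1 : ap f ![0, -(v 1), 0] 2 = ap f v 2 := by rw [m1.1, m2.1]
  have k2 : Q (ap f ![0, -(v 1), 0]) = Q (ap f v) := by rw [m1.2, m2.2]
  have n1 := E_eq (v := ap f v) ha
  have n2 := E_eq (v := ap f ![0, -(v 1), 0]) (by rw [k1]; exact ha)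
  rw [k1, k2] at n2
  have hfv := (h.1 v hv).1
  have hcur : (ap f v 2) ^ 5 - (Q (ap f v)) ^ 2 = d := by rw [← eval_P, hfv]
  have hline := line_const hc h.symm.maps ha hcur
  have g1 := (h.1 v hv).2
  have g2 := (h.1 _ hv').2
  rw [n1] at g1
  rw [n2] at g2
  obtain ⟨R, hR⟩ := poly_E (ap f v 2) (Q (ap f v)) (g 1)
  have hR' : ∀ t, R.eval t ^ 4 = (v 1) ^ 4 := by
    intro t
    have l1 := hline t (ap f v 1)
    rw [g1] at l1
    have l2 : Q (ap g (E (ap f v 2) (Q (ap f v)) t))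
        = (ap g (E (ap f v 2) (Q (ap f v)) t) 1) ^ 4 := Q_zero (by rw [l1.1, h0])
    have l4 : Q v = (v 1) ^ 4 := Q_zero h0
    have l5 : ap g (E (ap f v 2) (Q (ap f v)) t) 1 = R.eval t := (hR t).symm
    rw [← l5, ← l2, l1.2, l4]
  have hc1 := const_of_pow4 hR' (ap f v 1) (ap f ![0, -(v 1), 0] 1)
  rw [hR, hR] at hc1
  have p1 : ap g (E (ap f v 2) (Q (ap f v)) (ap f v 1)) 1 = v 1 := by rw [g1]
  have p2 : ap g (E (ap f v 2) (Q (ap f v)) (ap f ![0, -(v 1), 0] 1)) 1 = -(v 1) := by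
    rw [g2]
    simp
  have p3 : v 1 = -(v 1) := p1.symm.trans (Eq.trans hc1 p2)
  apply hy0
  linear_combination p3 / 2

end Pool.H64.ISO
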