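import Mathlib

/-!
# Functions on the affine curve `a^5 - b^2 = c`

Every polynomial function on the curve is `A(a) + b B(a)` for unique polynomials `A`, `B`.
-/

set_option autoImplicit false

namespace Pool.H64.ISO

open Polynomial

/-- `φ` is a polynomial function on the curve `a^5 - b^2 = c` -/
def Reg (c : ℂ) (φ : ℂ → ℂ → ℂ) : Prop :=
  ∃ A B : ℂ[X], ∀ a b : ℂ, a ^ 5 - b ^ 2 = c → φ a b = A.eval a + b * B.eval a

namespace Reg

variable {c : ℂ} {φ ψ : ℂ → ℂ → ℂ}

theorem const (c k : ℂ) : Reg c (fun _ _ => k) :=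
  ⟨C k, 0, fun a b _ => by simp⟩

theorem fst (c : ℂ) : Reg c (fun a _ => a) := ⟨X, 0, fun a b _ => by simp⟩

theorem snd (c : ℂ) : Reg c (fun _ b => b) := ⟨0, 1, fun a b _ => by simp⟩

theorem add (h1 : Reg c φ) (h2 : Reg c ψ) : Reg c (fun a b => φ a b + ψ a b) := by
  obtain ⟨A, B, h1⟩ := h1
  obtain ⟨A', B', h2⟩ := h2
  refine ⟨A + A', B + B', fun a b h => ?_⟩
  show φ a b + ψ a b = _
  rw [h1 a b h, h2 a b h]
  simp only [eval_add]
  ring

theorem mul (h1 : Reg c φ) (h2 : Reg c ψ) : Reg c (fun a b => φ a b * ψ a b) := by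
  obtain ⟨A, B, h1⟩ := h1
  obtain ⟨A', B', h2⟩ := h2
  refine ⟨A * A' + (X ^ 5 - C c) * (B * B'), A * B' + A' * B, fun a b h => ?_⟩
  show φ a b * ψ a b = _
  rw [h1 a b h, h2 a b h]
  simp only [eval_add, eval_mul, eval_sub, eval_pow, eval_X, eval_C]
  have hb : b ^ 2 = a ^ 5 - c := by linear_combination -h
  linear_combination (B.eval a * B'.eval a) * hb

theorem smul (k : ℂ) (h1 : Reg c φ) : Reg c (fun a b => k * φ a b) := (const c k).mul h1

theorem sub (h1 : Reg c φ) (h2 : Reg c ψ) : Reg c (fun a b => φ a b - ψ a b) := by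
  have := h1.add (h2.smul (-1))
  refine (show (fun a b => φ a b + -1 * ψ a b) = (fun a b => φ a b - ψ a b) from ?_) ▸ this
  funext a b
  ring

theorem pow (h1 : Reg c φ) (n : ℕ) : Reg c (fun a b => φ a b ^ n) := by
  induction n with
  | zero => simpa using const c 1
  | succ n ih =>
    have := ih.mul h1
    refine (show (fun a b => φ a b ^ n * φ a b) = (fun a b => φ a b ^ (n + 1)) from ?_) ▸ this
    funext a b
    ring

/-- composition with a polynomial -/
theorem comp (P : ℂ[X]) (h1 : Reg c φ) : Reg c (fun a b => P.eval (φ a b)) := by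
  induction P using Polynomial.induction_on' with
  | add p q hp hq =>
    have := hp.add hq
    refine (show (fun a b => p.eval (φ a b) + q.eval (φ a b)) =
      (fun a b => (p + q).eval (φ a b)) from ?_) ▸ this
    funext a b
    simp
  | monomial n k =>
    have := (h1.pow n).smul k
    refine (show (fun a b => k * φ a b ^ n) =
      (fun a b => (Polynomial.monomial n k).eval (φ a b)) from ?_) ▸ this
    funext a b
    simp

theorem congr (h1 : Reg c φ) (h : ∀ a b : ℂ, a ^ 5 - b ^ 2 = c → φ a b = ψ a b) : Reg c ψ := by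
  obtain ⟨A, B, h1⟩ := h1
  exact ⟨A, B, fun a b hab => by rw [← h a b hab, h1 a b hab]⟩

end Reg

theorem exists_sq (k : ℂ) : ∃ b : ℂ, b ^ 2 = k :=
  IsAlgClosed.exists_pow_nat_eq k (by norm_num)

/-- uniqueness of the normal form -/
theorem uniq {c : ℂ} (A B A' B' : ℂ[X])
    (h : ∀ a b : ℂ, a ^ 5 - b ^ 2 = c → a ≠ 0 →
      A.eval a + b * B.eval a = A'.eval a + b * B'.eval a) : A = A' ∧ B = B' := by
  have hne : (X * (X ^ 5 - C c) : ℂ[X]) ≠ 0 :=
    mul_ne_zero X_ne_zero (X_pow_sub_C_ne_zero (by norm_num) c)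
  have hinf : {a : ℂ | ¬ (X * (X ^ 5 - C c) : ℂ[X]).IsRoot a}.Infinite := by
    have := (Polynomial.finite_setOfPred_isRoot hne).infinite_compl
    exact this
  have key : ∀ a : ℂ, ¬ (X * (X ^ 5 - C c) : ℂ[X]).IsRoot a →
      A.eval a = A'.eval a ∧ B.eval a = B'.eval a := by
    intro a ha
    have ha' : a ≠ 0 ∧ a ^ 5 - c ≠ 0 := by
      constructor
      · rintro rfl
        exact ha (by simp)
      · intro h0
        exact ha (by simp [h0])
    obtain ⟨b, hb⟩ := exists_sq (a ^ 5 - c)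
    have hb0 : b ≠ 0 := by
      rintro rfl
      exact ha'.2 (by rw [← hb]; ring)
    have h1 := h a b (by rw [hb]; ring) ha'.1
    have h2 := h a (-b) (by rw [neg_sq, hb]; ring) ha'.1
    constructor
    · linear_combination (h1 + h2) / 2
    · have h3 : b * (B.eval a - B'.eval a) = 0 := by linear_combination (h1 - h2) / 2
      rcases mul_eq_zero.mp h3 with h4 | h4
      · exact absurd h4 hb0
      · linear_combination h4
  constructor
  · exact Polynomial.eq_of_infinite_eval_eq _ _ (hinf.mono fun a ha => (key a ha).1)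
  · exact Polynomial.eq_of_infinite_eval_eq _ _ (hinf.mono fun a ha => (key a ha).2)

/-- two polynomial functions which agree for `a ≠ 0` agree -/
theorem Reg.eq_of_ne {c : ℂ} {φ ψ : ℂ → ℂ → ℂ} (h1 : Reg c φ) (h2 : Reg c ψ)
    (h : ∀ a b : ℂ, a ^ 5 - b ^ 2 = c → a ≠ 0 → φ a b = ψ a b) :
    ∀ a b : ℂ, a ^ 5 - b ^ 2 = c → φ a b = ψ a b := by
  obtain ⟨A, B, h1⟩ := h1
  obtain ⟨A', B', h2⟩ := h2
  obtain ⟨e1, e2⟩ := uniq (c := c) A B A' B' (fun a b hab ha => by
    rw [← h1 a b hab, ← h2 a b hab, h a b hab ha])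
  intro a b hab
  rw [h1 a b hab, h2 a b hab, e1, e2]

/-- gluing -/
theorem glue {c β : ℂ} (hβ0 : β ≠ 0) {φ Φ Ψ : ℂ → ℂ → ℂ} {N M : ℕ}
    (hΦ : Reg c Φ) (hΨ : Reg c Ψ)
    (h1 : ∀ a b : ℂ, a ^ 5 - b ^ 2 = c → a ≠ 0 → φ a b * (b + β) ^ N = Φ a b)
    (h2 : ∀ a b : ℂ, a ^ 5 - b ^ 2 = c → a ≠ 0 → φ a b * (b - β) ^ M = Ψ a b) :
    ∃ χ : ℂ → ℂ → ℂ, Reg c χ ∧ ∀ a b : ℂ, a ^ 5 - b ^ 2 = c → a ≠ 0 → φ a b = χ a b := by
  have hcop : IsCoprime (X + C β : ℂ[X]) (X - C β) := by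
    refine ⟨C (1 / (2 * β)), -C (1 / (2 * β)), ?_⟩
    have : (C (1 / (2 * β)) * (X + C β) + -C (1 / (2 * β)) * (X - C β) : ℂ[X])
        = C (1 / (2 * β)) * C (2 * β) := by
      rw [show (2 * β : ℂ) = β + β by ring, C_add]
      ring
    rw [this, ← C_mul, one_div, inv_mul_cancel₀ (mul_ne_zero two_ne_zero hβ0), C_1]
  obtain ⟨u, v, huv⟩ := hcop.pow (m := N) (n := M)
  refine ⟨fun a b => u.eval b * Φ a b + v.eval b * Ψ a b,
    (((Reg.snd c).comp u).mul hΦ).add (((Reg.snd c).comp v).mul hΨ), fun a b hab ha => ?_⟩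
  have h3 := congrArg (Polynomial.eval b) huv
  simp only [eval_add, eval_mul, eval_pow, eval_X, eval_C, eval_sub, eval_one] at h3
  show φ a b = u.eval b * Φ a b + v.eval b * Ψ a b
  rw [← h1 a b hab ha, ← h2 a b hab ha]
  linear_combination (-φ a b) * h3

/-- units are constant -/
theorem unit_const {c : ℂ} {φ ψ : ℂ → ℂ → ℂ} (h1 : Reg c φ) (h2 : Reg c ψ)
    (h : ∀ a b : ℂ, a ^ 5 - b ^ 2 = c → a ≠ 0 → φ a b * ψ a b = 1) :
    ∃ k : ℂ, k ≠ 0 ∧ ∀ a b : ℂ, a ^ 5 - b ^ 2 = c → φ a b = k := by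
  obtain ⟨A, B, h1⟩ := h1
  obtain ⟨A', B', h2⟩ := h2
  obtain ⟨e1, e2⟩ := uniq (c := c) (A * A' + (X ^ 5 - C c) * (B * B')) (A * B' + A' * B) 1 0
    (fun a b hab ha => by
      have h3 := h a b hab ha
      rw [h1 a b hab, h2 a b hab] at h3
      simp only [eval_add, eval_mul, eval_sub, eval_pow, eval_X, eval_C, eval_one, eval_zero]
      have hb : b ^ 2 = a ^ 5 - c := by linear_combination -hab
      linear_combination h3 - (B.eval a * B'.eval a) * hb)
  have hN : (A ^ 2 - (X ^ 5 - C c) * B ^ 2) * (A' ^ 2 - (X ^ 5 - C c) * B' ^ 2) = 1 := by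
    have e3 : (A ^ 2 - (X ^ 5 - C c) * B ^ 2) * (A' ^ 2 - (X ^ 5 - C c) * B' ^ 2)
        = (A * A' + (X ^ 5 - C c) * (B * B')) ^ 2 - (X ^ 5 - C c) * (A * B' + A' * B) ^ 2 := by
      ring
    rw [e3, e1, e2]
    ring
  have hdeg : (A ^ 2 - (X ^ 5 - C c) * B ^ 2).natDegree = 0 :=
    Polynomial.natDegree_eq_zero_of_isUnit (IsUnit.of_mul_eq_one _ hN)
  have hB : B = 0 := by
    by_contra hB
    have hA : A ≠ 0 := by
      rintro rfl
      have h5 : ((X ^ 5 - C c) * B ^ 2 : ℂ[X]).natDegree = 5 + 2 * B.natDegree := by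
        rw [natDegree_mul (X_pow_sub_C_ne_zero (by norm_num) c) (pow_ne_zero 2 hB),
          natDegree_X_pow_sub_C, natDegree_pow]
      rw [zero_pow two_ne_zero, zero_sub, natDegree_neg, h5] at hdeg
      omega
    have h5 : ((X ^ 5 - C c) * B ^ 2 : ℂ[X]).natDegree = 5 + 2 * B.natDegree := by
      rw [natDegree_mul (X_pow_sub_C_ne_zero (by norm_num) c) (pow_ne_zero 2 hB),
        natDegree_X_pow_sub_C, natDegree_pow]
    have h6 : (A ^ 2 : ℂ[X]).natDegree = 2 * A.natDegree := natDegree_pow _ _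
    rcases lt_trichotomy (2 * A.natDegree) (5 + 2 * B.natDegree) with h7 | h7 | h7
    · have := natDegree_sub_eq_right_of_natDegree_lt
        (p := A ^ 2) (q := (X ^ 5 - C c) * B ^ 2) (by rw [h5, h6]; exact h7)
      rw [this, h5] at hdeg
      omega
    · omega
    · have := natDegree_sub_eq_left_of_natDegree_lt
        (p := A ^ 2) (q := (X ^ 5 - C c) * B ^ 2) (by rw [h5, h6]; exact h7)
      rw [this, h6] at hdeg
      omega
  subst hB
  simp only [ne_eq, OfNat.ofNat_ne_zero, not_false_eq_true, zero_pow, mul_zero, sub_zero,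
    natDegree_pow] at hdeg
  have hA : A.natDegree = 0 := by omega
  obtain ⟨k, hk⟩ : ∃ k, A = C k := ⟨A.coeff 0, Polynomial.eq_C_of_natDegree_eq_zero hA⟩
  refine ⟨k, ?_, fun a b hab => by rw [h1 a b hab, hk]; simp⟩
  rintro rfl
  rw [hk] at e1
  simp at e1

/-! ### Value and derivative at the point `(0, b₀)` -/

/-- `φ` is a polynomial function on the curve, with value `p` and derivative `q` (with respect to
`a`) at the point `(0, b₀)` -/
def Jet (c b₀ : ℂ) (φ : ℂ → ℂ → ℂ) (p q : ℂ) : Prop :=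
  ∃ A B : ℂ[X], (∀ a b : ℂ, a ^ 5 - b ^ 2 = c → φ a b = A.eval a + b * B.eval a) ∧
    A.eval 0 + b₀ * B.eval 0 = p ∧ A.derivative.eval 0 + b₀ * B.derivative.eval 0 = q

namespace Jet

variable {c b₀ p q p' q' : ℂ} {φ ψ : ℂ → ℂ → ℂ}

theorem of_reg (b₀ : ℂ) (h : Reg c φ) : ∃ p q, Jet c b₀ φ p q := by
  obtain ⟨A, B, h⟩ := h
  exact ⟨_, _, A, B, h, rfl, rfl⟩

theorem val (h : Jet c b₀ φ p q) (hb : b₀ ^ 2 = -c) : φ 0 b₀ = p := by
  obtain ⟨A, B, h, h1, _⟩ := h
  rw [h 0 b₀ (by rw [hb]; ring), h1]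

theorem const (c b₀ k : ℂ) : Jet c b₀ (fun _ _ => k) k 0 :=
  ⟨C k, 0, fun a b _ => by simp, by simp, by simp⟩

theorem fst (c b₀ : ℂ) : Jet c b₀ (fun a _ => a) 0 1 :=
  ⟨X, 0, fun a b _ => by simp, by simp, by simp⟩

theorem snd (c b₀ : ℂ) : Jet c b₀ (fun _ b => b) b₀ 0 :=
  ⟨0, 1, fun a b _ => by simp, by simp, by simp⟩

theorem add (h1 : Jet c b₀ φ p q) (h2 : Jet c b₀ ψ p' q') :
    Jet c b₀ (fun a b => φ a b + ψ a b) (p + p') (q + q') := by
  obtain ⟨A, B, h1, h3, h4⟩ := h1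
  obtain ⟨A', B', h2, h5, h6⟩ := h2
  refine ⟨A + A', B + B', fun a b h => ?_, ?_, ?_⟩
  · show φ a b + ψ a b = _
    rw [h1 a b h, h2 a b h]
    simp only [eval_add]
    ring
  · simp only [eval_add]
    linear_combination h3 + h5
  · simp only [derivative_add, eval_add]
    linear_combination h4 + h6

theorem mul (hb : b₀ ^ 2 = -c) (h1 : Jet c b₀ φ p q) (h2 : Jet c b₀ ψ p' q') :
    Jet c b₀ (fun a b => φ a b * ψ a b) (p * p') (p * q' + q * p') := by
  obtain ⟨A, B, h1, h3, h4⟩ := h1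
  obtain ⟨A', B', h2, h5, h6⟩ := h2
  refine ⟨A * A' + (X ^ 5 - C c) * (B * B'), A * B' + A' * B, fun a b h => ?_, ?_, ?_⟩
  · show φ a b * ψ a b = _
    rw [h1 a b h, h2 a b h]
    simp only [eval_add, eval_mul, eval_sub, eval_pow, eval_X, eval_C]
    have hb : b ^ 2 = a ^ 5 - c := by linear_combination -h
    linear_combination (B.eval a * B'.eval a) * hb
  · simp only [eval_add, eval_mul, eval_sub, eval_pow, eval_X, eval_C]
    rw [← h3, ← h5]
    linear_combination (-(B.eval 0 * B'.eval 0)) * hb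
  · simp only [derivative_add, derivative_mul, derivative_sub, derivative_X_pow, derivative_C,
      eval_add, eval_mul, eval_sub, eval_pow, eval_X, eval_C, eval_zero]
    rw [← h3, ← h4, ← h5, ← h6]
    norm_num
    linear_combination (-(B.derivative.eval 0 * B'.eval 0 + B.eval 0 * B'.derivative.eval 0)) * hb

theorem unique (h1 : Jet c b₀ φ p q) (h2 : Jet c b₀ ψ p' q')
    (h : ∀ a b : ℂ, a ^ 5 - b ^ 2 = c → a ≠ 0 → φ a b = ψ a b) : p = p' ∧ q = q' := by
  obtain ⟨A, B, h1, h3, h4⟩ := h1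
  obtain ⟨A', B', h2, h5, h6⟩ := h2
  obtain ⟨e1, e2⟩ := uniq (c := c) A B A' B' (fun a b hab ha => by
    rw [← h1 a b hab, ← h2 a b hab, h a b hab ha])
  rw [← h3, ← h4, ← h5, ← h6, e1, e2]
  exact ⟨rfl, rfl⟩

theorem pow (hb : b₀ ^ 2 = -c) (h1 : Jet c b₀ φ p q) (n : ℕ) :
    ∃ r, Jet c b₀ (fun a b => φ a b ^ n) (p ^ n) r := by
  induction n with
  | zero => exact ⟨0, by simpa using const c b₀ 1⟩
  | succ n ih =>
    obtain ⟨r, ih⟩ := ih
    have := ih.mul hb h1
    refine ⟨p ^ n * q + r * p, ?_⟩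
    rw [pow_succ]
    refine (show (fun a b => φ a b ^ n * φ a b) = (fun a b => φ a b ^ (n + 1)) from ?_) ▸ this
    funext a b
    ring

end Jet

/-! ### No polynomial curves -/

/-- the curve `a^5 - b^2 = d`, `d ≠ 0`, has no nonconstant polynomial parametrisations -/
theorem no_curve {d : ℂ} (hd : d ≠ 0) {U V : ℂ[X]} (h : U ^ 5 - V ^ 2 = C d) :
    (∃ k, U = C k) ∧ ∃ l, V = C l := by
  have hcop : IsCoprime (U ^ 4) V := by
    have h1 : IsCoprime U V := by
      refine ⟨C (1 / d) * U ^ 4, -(C (1 / d) * V), ?_⟩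
      have : C (1 / d) * U ^ 4 * U + -(C (1 / d) * V) * V = C (1 / d) * (U ^ 5 - V ^ 2) := by ring
      rw [this, h, ← C_mul, one_div, inv_mul_cancel₀ hd, C_1]
    exact h1.pow_left
  have hder : 5 * U ^ 4 * derivative U = 2 * V * derivative V := by
    have h1 := congrArg derivative h
    rw [derivative_sub, derivative_pow, derivative_pow, derivative_C] at h1
    simp only [Nat.cast_ofNat] at h1
    have h2 : (C 5 : ℂ[X]) = 5 := rfl
    have h3 : (C 2 : ℂ[X]) = 2 := rfl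
    rw [h2, h3] at h1
    linear_combination h1
  have hdvd : U ^ 4 ∣ derivative V := by
    have h1 : U ^ 4 ∣ V * derivative V := by
      refine ⟨C (5 / 2) * derivative U, ?_⟩
      have h2 : (C (5 / 2) : ℂ[X]) * 2 = 5 := by
        have e2 : (2 : ℂ[X]) = C 2 := (map_ofNat C 2).symm
        have e5 : (5 : ℂ[X]) = C 5 := (map_ofNat C 5).symm
        rw [e2, e5, ← C_mul]
        congr 1
        norm_num
      have h3 : (2 : ℂ[X]) ≠ 0 := two_ne_zero
      apply mul_left_cancel₀ h3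
      linear_combination -hder - (U ^ 4 * derivative U) * h2
    exact hcop.dvd_of_dvd_mul_left h1
  have hV : V.natDegree = 0 := by
    by_contra hV
    have hV1 : 0 < V.natDegree := Nat.pos_of_ne_zero hV
    have hdV : derivative V ≠ 0 := by
      intro h0
      exact hV (Polynomial.derivative_eq_zero.mp h0)
    have e1 : U ^ 5 = V ^ 2 + C d := by linear_combination h
    have e2 : (U ^ 5).natDegree = 2 * V.natDegree := by
      rw [e1, natDegree_add_C, natDegree_pow]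
    rw [natDegree_pow] at e2
    have e3 := natDegree_le_of_dvd hdvd hdV
    rw [natDegree_pow] at e3
    have e4 := natDegree_derivative_lt hV
    omega
  have hU : U.natDegree = 0 := by
    have e1 : U ^ 5 = V ^ 2 + C d := by linear_combination h
    have e2 : (U ^ 5).natDegree = 2 * V.natDegree := by
      rw [e1, natDegree_add_C, natDegree_pow]
    rw [natDegree_pow] at e2
    omega
  exact ⟨⟨_, eq_C_of_natDegree_eq_zero hU⟩, ⟨_, eq_C_of_natDegree_eq_zero hV⟩⟩

end Pool.H64.ISO
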