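import Pool.Agent.H64.ISO.Curve

/-!
# The polynomial `P = y^5 - Q^2`, `Q = y^2 z + y x^2 + x^4`, and its fibres

Coordinates: `z = v 0`, `x = v 1`, `y = v 2`. The fibre `P = c` is mapped by `(y, Q)` to the curve
`a^5 - b^2 = c`; over `a ≠ 0` the fibre is the line `E a b`.
-/

set_option autoImplicit false

namespace Pool.H64.ISO

open MvPolynomial

/-- the polynomial `y^5 - (y^2 z + y x^2 + x^4)^2` -/
noncomputable def P : MvPolynomial (Fin 3) ℂ :=
  X 2 ^ 5 - (X 2 ^ 2 * X 0 + X 2 * X 1 ^ 2 + X 1 ^ 4) ^ 2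

/-- `y^2 z + y x^2 + x^4` -/
def Q (v : Fin 3 → ℂ) : ℂ := v 2 ^ 2 * v 0 + v 2 * v 1 ^ 2 + v 1 ^ 4

theorem eval_P (v : Fin 3 → ℂ) : eval v P = v 2 ^ 5 - Q v ^ 2 := by
  simp [P, Q]

/-- evaluation along a polynomial curve -/
theorem eval_curve (a : Fin 3 → Polynomial ℂ) (h : MvPolynomial (Fin 3) ℂ) (t : ℂ) :
    (MvPolynomial.aeval a h).eval t = MvPolynomial.eval (fun i => (a i).eval t) h := by
  induction h using MvPolynomial.induction_on with
  | C k => simp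
  | add p q hp hq => simp [hp, hq]
  | mul_X p i hp => simp [hp]

theorem eq_vec (v : Fin 3 → ℂ) : v = ![v 0, v 1, v 2] := by
  funext i
  fin_cases i <;> rfl

/-- the line over the point `(a, b)` of the curve, `a ≠ 0` -/
noncomputable def E (a b t : ℂ) : Fin 3 → ℂ := ![(b - a * t ^ 2 - t ^ 4) / a ^ 2, t, a]

theorem Q_E {a : ℂ} (ha : a ≠ 0) (b t : ℂ) : Q (E a b t) = b := by
  simp only [Q, E, Matrix.cons_val_zero, Matrix.cons_val_one, Matrix.cons_val]
  field_simp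
  ring

theorem eval_E {a : ℂ} (ha : a ≠ 0) (b t : ℂ) : eval (E a b t) P = a ^ 5 - b ^ 2 := by
  rw [eval_P, Q_E ha]
  simp [E]

theorem E_eq {v : Fin 3 → ℂ} (h : v 2 ≠ 0) : v = E (v 2) (Q v) (v 1) := by
  funext i
  fin_cases i
  · simp only [Q, E, Matrix.cons_val_zero, Fin.zero_eta]
    field_simp
    ring
  · simp [E]
  · simp [E]

theorem poly_E (a b : ℂ) (h : MvPolynomial (Fin 3) ℂ) :
    ∃ R : Polynomial ℂ, ∀ t, R.eval t = eval (E a b t) h := by
  refine ⟨MvPolynomial.aeval ![(Polynomial.C b - Polynomial.C a * Polynomial.X ^ 2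
    - Polynomial.X ^ 4) * Polynomial.C (1 / a ^ 2), Polynomial.X, Polynomial.C a] h, fun t => ?_⟩
  rw [eval_curve]
  congr 1
  congr 1
  funext i
  fin_cases i
  · simp [E]
    ring
  · simp [E]
  · simp [E]

/-- the section through the special line `x = x₀` over `(0, x₀^4)` -/
noncomputable def sec (x a b : ℂ) : Fin 3 → ℂ :=
  ![a ^ 3 / (b + x ^ 4) + 1 / 8 - a ^ 2 / (256 * x ^ 4), x - a / (4 * x), a]

theorem Q_sec {c x a b : ℂ} (hx : x ≠ 0) (hc : x ^ 8 = -c) (hab : a ^ 5 - b ^ 2 = c)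
    (hb : b + x ^ 4 ≠ 0) : Q (sec x a b) = b := by
  have h1 : a ^ 5 = (b - x ^ 4) * (b + x ^ 4) := by linear_combination hab + hc
  have h2 : a ^ 2 * (a ^ 3 / (b + x ^ 4)) = b - x ^ 4 := by
    rw [← mul_div_assoc, div_eq_iff hb, ← h1]
    ring
  have h3 : a ^ 2 * (1 / 8 - a ^ 2 / (256 * x ^ 4)) + a * (x - a / (4 * x)) ^ 2
      + (x - a / (4 * x)) ^ 4 = x ^ 4 := by
    field_simp
    ring
  simp only [Q, sec, Matrix.cons_val_zero, Matrix.cons_val_one, Matrix.cons_val]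
  linear_combination h2 + h3

theorem eval_sec {c x a b : ℂ} (hx : x ≠ 0) (hc : x ^ 8 = -c) (hab : a ^ 5 - b ^ 2 = c)
    (hb : b + x ^ 4 ≠ 0) : eval (sec x a b) P = c := by
  rw [eval_P, Q_sec hx hc hab hb, ← hab]
  simp [sec]

theorem sec_reg {c x : ℂ} (h : MvPolynomial (Fin 3) ℂ) :
    ∃ (N : ℕ) (Φ : ℂ → ℂ → ℂ), Reg c Φ ∧ ∀ a b : ℂ, a ^ 5 - b ^ 2 = c → b + x ^ 4 ≠ 0 →
      eval (sec x a b) h * (b + x ^ 4) ^ N = Φ a b := by
  have hden : Reg c (fun _ b => b + x ^ 4) := (Reg.snd c).add (Reg.const c (x ^ 4))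
  induction h using MvPolynomial.induction_on with
  | C k => exact ⟨0, fun _ _ => k, Reg.const c k, fun a b _ _ => by simp⟩
  | add p q hp hq =>
    obtain ⟨N1, Φ1, r1, h1⟩ := hp
    obtain ⟨N2, Φ2, r2, h2⟩ := hq
    refine ⟨N1 + N2, fun a b => Φ1 a b * (b + x ^ 4) ^ N2 + Φ2 a b * (b + x ^ 4) ^ N1,
      (r1.mul (hden.pow N2)).add (r2.mul (hden.pow N1)), fun a b hab hb => ?_⟩
    beta_reduce
    rw [← h1 a b hab hb, ← h2 a b hab hb, map_add]
    ring
  | mul_X p i hp =>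
    obtain ⟨N, Φ, r1, h1⟩ := hp
    fin_cases i
    · refine ⟨N + 1, fun a b => Φ a b * (a ^ 3 + (1 / 8 - 1 / (256 * x ^ 4) * a ^ 2) *
        (b + x ^ 4)), r1.mul (((Reg.fst c).pow 3).add (((Reg.const c (1 / 8)).sub
        (((Reg.fst c).pow 2).smul (1 / (256 * x ^ 4)))).mul hden)), fun a b hab hb => ?_⟩
      beta_reduce
      rw [← h1 a b hab hb]
      simp only [map_mul, eval_X, sec, Fin.zero_eta, Matrix.cons_val_zero]
      field_simp
      ring
    · refine ⟨N, fun a b => Φ a b * (x - 1 / (4 * x) * a), r1.mul ((Reg.const c x).sub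
        ((Reg.fst c).smul (1 / (4 * x)))), fun a b hab hb => ?_⟩
      beta_reduce
      rw [← h1 a b hab hb]
      simp only [map_mul, eval_X, sec, Fin.mk_one, Matrix.cons_val_one, Matrix.cons_val_zero]
      ring
    · refine ⟨N, fun a b => Φ a b * a, r1.mul (Reg.fst c), fun a b hab hb => ?_⟩
      beta_reduce
      rw [← h1 a b hab hb]
      simp only [map_mul, eval_X, sec, Fin.reduceFinMk, Matrix.cons_val]
      ring

/-- apply a polynomial map -/
noncomputable def ap (f : Fin 3 → MvPolynomial (Fin 3) ℂ) (x : Fin 3 → ℂ) : Fin 3 → ℂ :=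
  fun i => eval x (f i)

/-- `f` maps the fibre over `c` to the fibre over `d` -/
def MapsFib (c d : ℂ) (f : Fin 3 → MvPolynomial (Fin 3) ℂ) : Prop :=
  ∀ v : Fin 3 → ℂ, eval v P = c → eval (ap f v) P = d

/-- an isomorphism between fibres -/
def Iso (c d : ℂ) (f g : Fin 3 → MvPolynomial (Fin 3) ℂ) : Prop :=
  (∀ x : Fin 3 → ℂ, eval x P = c → eval (ap f x) P = d ∧ ap g (ap f x) = x) ∧
  (∀ y : Fin 3 → ℂ, eval y P = d → eval (ap g y) P = c ∧ ap f (ap g y) = y)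

theorem Iso.symm {c d : ℂ} {f g : Fin 3 → MvPolynomial (Fin 3) ℂ} (h : Iso c d f g) :
    Iso d c g f := ⟨h.2, h.1⟩

theorem Iso.maps {c d : ℂ} {f g : Fin 3 → MvPolynomial (Fin 3) ℂ} (h : Iso c d f g) :
    MapsFib c d f := fun v hv => (h.1 v hv).1

/-- `(y, Q)` is constant on the images of the lines -/
theorem line_const {c d : ℂ} (hd : d ≠ 0) {f : Fin 3 → MvPolynomial (Fin 3) ℂ}
    (hf : MapsFib c d f) {a b : ℂ} (ha : a ≠ 0) (hab : a ^ 5 - b ^ 2 = c) (t t' : ℂ) :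
    ap f (E a b t) 2 = ap f (E a b t') 2 ∧ Q (ap f (E a b t)) = Q (ap f (E a b t')) := by
  obtain ⟨U, hU⟩ := poly_E a b (f 2)
  obtain ⟨V, hV⟩ := poly_E a b (f 2 ^ 2 * f 0 + f 2 * f 1 ^ 2 + f 1 ^ 4)
  have hV' : ∀ t, V.eval t = Q (ap f (E a b t)) := by
    intro t
    rw [hV]
    simp [Q, ap]
  have key : U ^ 5 - V ^ 2 = Polynomial.C d := by
    apply Polynomial.funext
    intro t
    have h1 := hf (E a b t) (by rw [eval_E ha, hab])
    rw [eval_P, ← hV'] at h1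
    have h2 : ap f (E a b t) 2 = U.eval t := (hU t).symm
    rw [h2] at h1
    simp only [Polynomial.eval_sub, Polynomial.eval_pow, Polynomial.eval_C]
    exact h1
  obtain ⟨⟨k, hk⟩, ⟨l, hl⟩⟩ := no_curve hd key
  have e1 : ∀ t, ap f (E a b t) 2 = k := by
    intro t
    have : ap f (E a b t) 2 = U.eval t := (hU t).symm
    rw [this, hk, Polynomial.eval_C]
  have e2 : ∀ t, Q (ap f (E a b t)) = l := by
    intro t
    rw [← hV', hl, Polynomial.eval_C]
  exact ⟨by rw [e1, e1], by rw [e2, e2]⟩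

end Pool.H64.ISO
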