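import Pool.Agent.H64.ISO.Scale

/-!
# The `x`-coordinate of an isomorphism, and the end of the proof
-/

set_option autoImplicit false

namespace Pool.H64.ISO

open MvPolynomial

/-- the isomorphism is affine on the lines -/
theorem affine_line {c d : ℂ} {f g : Fin 3 → MvPolynomial (Fin 3) ℂ}
    (h : Iso c d f g) {α γ : ℂ} (hα : α ≠ 0)
    (hs : ∀ v : Fin 3 → ℂ, eval v P = c → ap f v 2 = α * v 2 ∧ Q (ap f v) = γ * Q v)
    {a b : ℂ} (ha : a ≠ 0) (hab : a ^ 5 - b ^ 2 = c) :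
    ∃ k l k' l' : ℂ, k' * k = 1 ∧ (∀ t, ap f (E a b t) 1 = k * t + l) ∧
      ∀ t, ap g (E (α * a) (γ * b) t) 1 = k' * t + l' := by
  obtain ⟨φ, hφ⟩ := poly_E a b (f 1)
  obtain ⟨ψ, hψ⟩ := poly_E (α * a) (γ * b) (g 1)
  have e1 : ∀ t, ap f (E a b t) = E (α * a) (γ * b) (φ.eval t) := by
    intro t
    have hv : eval (E a b t) P = c := by rw [eval_E ha, hab]
    obtain ⟨k1, k2⟩ := hs _ hv
    have e2 : E a b t 2 = a := by simp [E]
    rw [e2] at k1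
    rw [Q_E ha] at k2
    have k3 := E_eq (v := ap f (E a b t)) (by rw [k1]; exact mul_ne_zero hα ha)
    rw [k3, k1, k2]
    congr 1
    exact (hφ t).symm
  have e2 : ψ.comp φ = Polynomial.X := by
    apply Polynomial.funext
    intro t
    have hv : eval (E a b t) P = c := by rw [eval_E ha, hab]
    rw [Polynomial.eval_comp, hψ, ← e1, Polynomial.eval_X]
    have k1 := congrFun (h.1 _ hv).2 1
    have k2 : E a b t 1 = t := by simp [E]
    rw [k2] at k1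
    exact k1
  have e3 := congrArg Polynomial.natDegree e2
  rw [Polynomial.natDegree_comp, Polynomial.natDegree_X] at e3
  have d1 : ψ.natDegree = 1 := Nat.eq_one_of_mul_eq_one_right e3
  have d2 : φ.natDegree = 1 := Nat.eq_one_of_mul_eq_one_left e3
  obtain ⟨k, _, l, h1⟩ := Polynomial.natDegree_eq_one.mp d2
  obtain ⟨k', _, l', h2⟩ := Polynomial.natDegree_eq_one.mp d1
  have f1 : ∀ t, φ.eval t = k * t + l := by
    intro t
    rw [← h1]
    simp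
  have f2 : ∀ t, ψ.eval t = k' * t + l' := by
    intro t
    rw [← h2]
    simp
  refine ⟨k, l, k', l', ?_, fun t => ?_, fun t => ?_⟩
  · have g0 := congrArg (Polynomial.eval 0) e2
    have g1 := congrArg (Polynomial.eval 1) e2
    rw [Polynomial.eval_comp, f1, f2, Polynomial.eval_X] at g0 g1
    linear_combination g1 - g0
  · rw [← f1, hφ]
    rfl
  · rw [← f2, hψ]
    rfl

/-- `φ (b + s)^N` is a polynomial function -/
def SReg (c s : ℂ) (φ : ℂ → ℂ → ℂ) : Prop :=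
  ∃ (N : ℕ) (Φ : ℂ → ℂ → ℂ), Reg c Φ ∧ ∀ a b : ℂ, a ^ 5 - b ^ 2 = c → a ≠ 0 →
    φ a b * (b + s) ^ N = Φ a b

theorem SReg.add {c s : ℂ} {φ ψ : ℂ → ℂ → ℂ} (h1 : SReg c s φ) (h2 : SReg c s ψ) :
    SReg c s (fun a b => φ a b + ψ a b) := by
  obtain ⟨N, Φ, r1, h1⟩ := h1
  obtain ⟨M, Ψ, r2, h2⟩ := h2
  have hden : Reg c (fun _ b => b + s) := (Reg.snd c).add (Reg.const c s)
  refine ⟨N + M, fun a b => Φ a b * (b + s) ^ M + Ψ a b * (b + s) ^ N,
    (r1.mul (hden.pow M)).add (r2.mul (hden.pow N)), fun a b hab ha => ?_⟩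
  beta_reduce
  rw [← h1 a b hab ha, ← h2 a b hab ha]
  ring

theorem SReg.smul {c s : ℂ} {φ : ℂ → ℂ → ℂ} (k : ℂ) (h1 : SReg c s φ) :
    SReg c s (fun a b => k * φ a b) := by
  obtain ⟨N, Φ, r1, h1⟩ := h1
  refine ⟨N, fun a b => k * Φ a b, r1.smul k, fun a b hab ha => ?_⟩
  beta_reduce
  rw [← h1 a b hab ha]
  ring

theorem SReg.congr {c s : ℂ} {φ ψ : ℂ → ℂ → ℂ} (h1 : SReg c s φ)
    (h : ∀ a b : ℂ, a ^ 5 - b ^ 2 = c → a ≠ 0 → φ a b = ψ a b) : SReg c s ψ := by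
  obtain ⟨N, Φ, r1, h1⟩ := h1
  exact ⟨N, Φ, r1, fun a b hab ha => by rw [← h a b hab ha, h1 a b hab ha]⟩

theorem sreg_sec {c x s : ℂ} (hs : x ^ 4 = s) (hx : x ^ 8 = -c) (h : MvPolynomial (Fin 3) ℂ) :
    SReg c s (fun a b => eval (sec x a b) h) := by
  obtain ⟨N, Φ, r, hΦ⟩ := sec_reg (c := c) (x := x) h
  refine ⟨N, Φ, r, fun a b hab ha => ?_⟩
  have := hΦ a b hab (den_ne hx hab ha)
  rw [hs] at this
  exact this

theorem sreg_glue {c β : ℂ} (hβ0 : β ≠ 0) {φ : ℂ → ℂ → ℂ} (h1 : SReg c β φ)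
    (h2 : SReg c (-β) φ) :
    ∃ χ : ℂ → ℂ → ℂ, Reg c χ ∧ ∀ a b : ℂ, a ^ 5 - b ^ 2 = c → a ≠ 0 → φ a b = χ a b := by
  obtain ⟨N, Φ, r1, h1⟩ := h1
  obtain ⟨M, Ψ, r2, h2⟩ := h2
  exact glue hβ0 r1 r2 h1 (fun a b hab ha => by
    have := h2 a b hab ha
    rw [← sub_eq_add_neg] at this
    exact this)

/-- coefficients of the `x`-coordinate of the isomorphism are polynomial functions -/
theorem coeff_reg {c : ℂ} (hc : c ≠ 0) (F : MvPolynomial (Fin 3) ℂ) (k l : ℂ → ℂ → ℂ)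
    (hkl : ∀ a b : ℂ, a ^ 5 - b ^ 2 = c → a ≠ 0 → ∀ t, eval (E a b t) F = k a b * t + l a b) :
    (∃ χ : ℂ → ℂ → ℂ, Reg c χ ∧ ∀ a b : ℂ, a ^ 5 - b ^ 2 = c → a ≠ 0 → k a b = χ a b) ∧
    ∃ χ : ℂ → ℂ → ℂ, Reg c χ ∧ ∀ a b : ℂ, a ^ 5 - b ^ 2 = c → a ≠ 0 → l a b = χ a b := by
  have hI : Complex.I ^ 4 = 1 := Complex.I_pow_four
  have hI2 : Complex.I ^ 2 = -1 := Complex.I_sq
  have key : ∀ x : ℂ, x ^ 8 = -c → SReg c (x ^ 4) k ∧ SReg c (x ^ 4) l := by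
    intro x hx
    have hx0 := ne_of_pow hc hx
    have hI0 : Complex.I ≠ 0 := Complex.I_ne_zero
    have hval : ∀ y : ℂ, y ^ 8 = -c → y ≠ 0 → ∀ a b : ℂ, a ^ 5 - b ^ 2 = c → a ≠ 0 →
        eval (sec y a b) F = k a b * (y - a / (4 * y)) + l a b := by
      intro y hy hy0 a b hab ha
      rw [sec_eq hy0 hy hab ha, hkl a b hab ha]
    have x1 : (-x) ^ 8 = -c := by rw [← hx]; ring
    have x2 : (Complex.I * x) ^ 8 = -c := by
      rw [← hx, mul_pow, show (8 : ℕ) = 4 * 2 from rfl, pow_mul, hI]; ring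
    have x3 : (-(Complex.I * x)) ^ 8 = -c := by rw [← x2]; ring
    have s0 := sreg_sec (s := x ^ 4) rfl hx F
    have s1 := sreg_sec (s := x ^ 4) (by ring) x1 F
    have s2 := sreg_sec (s := x ^ 4) (x := Complex.I * x) (by rw [mul_pow, hI, one_mul]) x2 F
    have s3 := sreg_sec (s := x ^ 4) (x := -(Complex.I * x))
      (by rw [neg_pow, mul_pow, hI]; ring) x3 F
    have n1 : (-x) ≠ 0 := neg_ne_zero.mpr hx0
    have n2 : Complex.I * x ≠ 0 := mul_ne_zero hI0 hx0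
    have n3 : -(Complex.I * x) ≠ 0 := neg_ne_zero.mpr n2
    constructor
    · refine ((((s0.add (s1.smul (-1))).add (s2.smul (-Complex.I))).add
        (s3.smul Complex.I)).smul (1 / (4 * x))).congr (fun a b hab ha => ?_)
      rw [hval x hx hx0 a b hab ha, hval _ x1 n1 a b hab ha, hval _ x2 n2 a b hab ha,
        hval _ x3 n3 a b hab ha]
      field_simp
      linear_combination (-(8 * x ^ 2 * k a b)) * hI2
    · refine ((s0.add s1).smul (1 / 2)).congr (fun a b hab ha => ?_)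
      rw [hval x hx hx0 a b hab ha, hval _ x1 n1 a b hab ha]
      field_simp
      ring
  obtain ⟨β, hβ⟩ := exists_sq (-c)
  have hβ0 : β ≠ 0 := by
    rintro rfl
    apply hc
    linear_combination hβ
  obtain ⟨x, hx⟩ := IsAlgClosed.exists_pow_nat_eq β (n := 4) (by norm_num)
  obtain ⟨x', hx'⟩ := IsAlgClosed.exists_pow_nat_eq (-β) (n := 4) (by norm_num)
  have hx8 : x ^ 8 = -c := by rw [← hβ, ← hx]; ring
  have hx8' : x' ^ 8 = -c := by rw [← hβ, ← neg_sq β, ← hx']; ring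
  have k1 := key x hx8
  have k2 := key x' hx8'
  rw [hx] at k1
  rw [hx'] at k2
  exact ⟨sreg_glue hβ0 k1.1 k2.1, sreg_glue hβ0 k1.2 k2.2⟩

end Pool.H64.ISO
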