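import Pool.Agent.H64.ISO.Fiber

/-!
# The fibres over different `c ≠ 0` are not isomorphic
-/

set_option autoImplicit false

namespace Pool.H64.ISO

open MvPolynomial

theorem x_form {c d : ℂ} (hc : c ≠ 0) (hd : d ≠ 0) {f g : Fin 3 → MvPolynomial (Fin 3) ℂ}
    (h : Iso c d f g) : ∃ α γ κ : ℂ, ∃ L : ℂ → ℂ → ℂ, α ≠ 0 ∧ κ ≠ 0 ∧ γ ^ 2 = α ^ 5 ∧
      γ ^ 2 * c = d ∧ Reg c L ∧
      (∀ v : Fin 3 → ℂ, eval v P = c → ap f v 2 = α * v 2 ∧ Q (ap f v) = γ * Q v) ∧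
      ∀ a b : ℂ, a ^ 5 - b ^ 2 = c → a ≠ 0 → ∀ t, ap f (E a b t) 1 = κ * t + L a b := by
  obtain ⟨α, γ, hα, hγ, hγc, hs⟩ := snd_scale hc hd h
  obtain ⟨α', γ', hα', _, _, hs'⟩ := snd_scale hd hc h.symm
  have hγ0 : γ ≠ 0 := by
    rintro rfl
    apply hd
    rw [← hγc]
    ring
  have hk : ∀ a b : ℂ, a ^ 5 - b ^ 2 = c → a ≠ 0 → ∀ t, eval (E a b t) (f 1)
      = (ap f (E a b 1) 1 - ap f (E a b 0) 1) * t + ap f (E a b 0) 1 := by
    intro a b hab ha t
    obtain ⟨k, l, _, _, _, h1, _⟩ := affine_line h hα hs ha hab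
    have e : eval (E a b t) (f 1) = ap f (E a b t) 1 := rfl
    rw [e, h1, h1, h1]
    ring
  have hk' : ∀ a b : ℂ, a ^ 5 - b ^ 2 = d → a ≠ 0 → ∀ t, eval (E a b t) (g 1)
      = (ap g (E a b 1) 1 - ap g (E a b 0) 1) * t + ap g (E a b 0) 1 := by
    intro a b hab ha t
    obtain ⟨k, l, _, _, _, h1, _⟩ := affine_line h.symm hα' hs' ha hab
    have e : eval (E a b t) (g 1) = ap g (E a b t) 1 := rfl
    rw [e, h1, h1, h1]
    ring
  obtain ⟨⟨χ, rχ, hχ⟩, ⟨L, rL, hL⟩⟩ := coeff_reg hc (f 1)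
    (fun a b => ap f (E a b 1) 1 - ap f (E a b 0) 1) (fun a b => ap f (E a b 0) 1) hk
  obtain ⟨⟨χ', ⟨A', B', rχ'⟩, hχ'⟩, _⟩ := coeff_reg hd (g 1)
    (fun a b => ap g (E a b 1) 1 - ap g (E a b 0) 1) (fun a b => ap g (E a b 0) 1) hk'
  have rC : Reg c (fun a b => A'.eval (α * a) + (γ * b) * B'.eval (α * a)) :=
    (((Reg.fst c).smul α).comp A').add (((Reg.snd c).smul γ).mul (((Reg.fst c).smul α).comp B'))
  obtain ⟨κ, hκ0, hκ⟩ := unit_const rχ rC (fun a b hab ha => by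
    have hab' : (α * a) ^ 5 - (γ * b) ^ 2 = d := by
      rw [← hγc, ← hab]
      linear_combination (-a ^ 5) * hγ
    have ha' : α * a ≠ 0 := mul_ne_zero hα ha
    obtain ⟨k, l, k', l', h1, h2, h3⟩ := affine_line h hα hs ha hab
    have e1 := hχ a b hab ha
    have e2 := hχ' _ _ hab' ha'
    beta_reduce at e1 e2
    rw [h2, h2] at e1
    rw [h3, h3, rχ' _ _ hab'] at e2
    rw [← e1, ← e2]
    linear_combination h1)
  refine ⟨α, γ, κ, L, hα, hκ0, hγ, hγc, rL, hs, fun a b hab ha t => ?_⟩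
  have e1 := hk a b hab ha t
  have e2 := hχ a b hab ha
  have e3 := hL a b hab ha
  beta_reduce at e2 e3
  have e : eval (E a b t) (f 1) = ap f (E a b t) 1 := rfl
  rw [← e, e1, e2, hκ a b hab, e3]

/-- first order information at the special lines -/
theorem jets {c : ℂ} (hc : c ≠ 0) {f : Fin 3 → MvPolynomial (Fin 3) ℂ}
    {α γ κ : ℂ} {L : ℂ → ℂ → ℂ} (rL : Reg c L)
    (hs : ∀ v : Fin 3 → ℂ, eval v P = c → ap f v 2 = α * v 2 ∧ Q (ap f v) = γ * Q v)
    (hx : ∀ a b : ℂ, a ^ 5 - b ^ 2 = c → a ≠ 0 → ∀ t, ap f (E a b t) 1 = κ * t + L a b)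
    (s : ℂ) (hsc : s ^ 2 = -c) : ∃ p q : ℂ, ∀ x : ℂ, x ^ 4 = s →
      γ * s = (κ * x + p) ^ 4 ∧
      α * (κ * x + p) ^ 2 + 4 * (κ * x + p) ^ 3 * (-(κ / (4 * x)) + q) = 0 := by
  have hs0 : s ≠ 0 := by
    rintro rfl
    apply hc
    linear_combination hsc
  obtain ⟨p, q, jL⟩ := Jet.of_reg s rL
  refine ⟨p, q, fun x hx4 => ?_⟩
  have hx8 : x ^ 8 = -c := by rw [← hsc, ← hx4]; ring
  have hx0 := ne_of_pow hc hx8
  obtain ⟨N, Φ, rΦ, hΦ⟩ := sec_reg (c := c) (x := x) (f 0)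
  obtain ⟨u, w, jΦ⟩ := Jet.of_reg s rΦ
  -- the `x`-coordinate along the section
  have jX0 : Jet c s (fun a _ => κ * (x - a / (4 * x))) (κ * x) (-(κ / (4 * x))) := by
    have j1 := (Jet.const c s (κ * x)).add
      (Jet.mul hsc (Jet.const c s (-(κ / (4 * x)))) (Jet.fst c s))
    have e : (fun (a _ : ℂ) => κ * x + -(κ / (4 * x)) * a)
        = (fun (a _ : ℂ) => κ * (x - a / (4 * x))) := by
      funext a b
      ring
    rw [e] at j1
    have e1 : κ * x + -(κ / (4 * x)) * 0 = κ * x := by ring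
    have e2 : 0 + (-(κ / (4 * x)) * 1 + 0 * 0) = -(κ / (4 * x)) := by ring
    rw [e1, e2] at j1
    exact j1
  have jX := jX0.add jL
  have jX2 := Jet.mul hsc jX jX
  have jX4 := Jet.mul hsc jX2 jX2
  have jaX2 := Jet.mul hsc (Jet.mul hsc (Jet.const c s (-α)) (Jet.fst c s)) jX2
  have jb := Jet.mul hsc (Jet.const c s γ) (Jet.snd c s)
  have jG := (jb.add jaX2).add (Jet.mul hsc (Jet.const c s (-1)) jX4)
  obtain ⟨r, jD⟩ := Jet.pow hsc ((Jet.snd c s).add (Jet.const c s s)) N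
  have jl := Jet.mul hsc jG jD
  have ja2 := Jet.mul hsc (Jet.fst c s) (Jet.fst c s)
  have jr := Jet.mul hsc (Jet.mul hsc (Jet.const c s (α ^ 2)) ja2) jΦ
  obtain ⟨e1, e2⟩ := Jet.unique jl jr (fun a b hab ha => by
    have hd := den_ne hx8 hab ha
    have hv : eval (sec x a b) P = c := eval_sec hx0 hx8 hab hd
    have k0 := hΦ a b hab hd
    have k1 := hs _ hv
    have k2 : sec x a b 2 = a := by simp [sec]
    have k3 := Q_sec hx0 hx8 hab hd
    have k4 := hx a b hab ha (x - a / (4 * x))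
    rw [← sec_eq hx0 hx8 hab ha] at k4
    rw [k2, k3] at k1
    have k5 : eval (sec x a b) (f 0) = ap f (sec x a b) 0 := rfl
    rw [k5, hx4] at k0
    have k6 : Q (ap f (sec x a b)) = ap f (sec x a b) 2 ^ 2 * ap f (sec x a b) 0
      + ap f (sec x a b) 2 * ap f (sec x a b) 1 ^ 2 + ap f (sec x a b) 1 ^ 4 := rfl
    rw [k1.2, k1.1, k4] at k6
    rw [← k0]
    linear_combination (b + s) ^ N * k6)
  have hT : (s + s) ^ N ≠ 0 := pow_ne_zero N (by rw [← two_mul]; exact mul_ne_zero two_ne_zero hs0)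
  have e3 : (γ * s - (κ * x + p) ^ 4) * (s + s) ^ N = 0 := by
    linear_combination e1
  have e4 : γ * s - (κ * x + p) ^ 4 = 0 := by
    rcases mul_eq_zero.mp e3 with h1 | h1
    · exact h1
    · exact absurd h1 hT
  have e5 : (α * (κ * x + p) ^ 2 + 4 * (κ * x + p) ^ 3 * (-(κ / (4 * x)) + q)) * (s + s) ^ N
      = 0 := by
    linear_combination -e2 + r * e4
  refine ⟨by linear_combination e4, ?_⟩
  rcases mul_eq_zero.mp e5 with h1 | h1
  · exact h1
  · exact absurd h1 hT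

theorem iso_eq {c d : ℂ} (hc : c ≠ 0) (hd : d ≠ 0) {f g : Fin 3 → MvPolynomial (Fin 3) ℂ}
    (h : Iso c d f g) : c = d := by
  obtain ⟨α, γ, κ, L, hα, hκ, hγ, hγc, rL, hs, hx⟩ := x_form hc hd h
  obtain ⟨s, hsc⟩ := exists_sq (-c)
  have hs0 : s ≠ 0 := by
    rintro rfl
    apply hc
    linear_combination hsc
  obtain ⟨p, q, hj⟩ := jets hc rL hs hx s hsc
  obtain ⟨x, hx4⟩ := IsAlgClosed.exists_pow_nat_eq s (n := 4) (by norm_num)
  have hx0 : x ≠ 0 := by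
    rintro rfl
    apply hs0
    rw [← hx4]
    ring
  have hI4 : Complex.I ^ 4 = 1 := Complex.I_pow_four
  have hI2 : Complex.I ^ 2 = -1 := Complex.I_sq
  obtain ⟨a1, b1⟩ := hj x hx4
  obtain ⟨a2, b2⟩ := hj (-x) (by rw [← hx4]; ring)
  obtain ⟨a3, _⟩ := hj (Complex.I * x) (by rw [mul_pow, hI4, one_mul, hx4])
  obtain ⟨a4, _⟩ := hj (-(Complex.I * x)) (by rw [neg_pow, mul_pow, hI4, hx4]; ring)
  have hkx : κ * x ≠ 0 := mul_ne_zero hκ hx0
  -- p = 0
  have p1 : p * ((κ * x) ^ 2 + p ^ 2) = 0 := by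
    have : 8 * (κ * x) * (p * ((κ * x) ^ 2 + p ^ 2)) = 0 := by linear_combination a2 - a1
    rcases mul_eq_zero.mp this with h1 | h1
    · exact absurd h1 (mul_ne_zero (by norm_num) hkx)
    · exact h1
  have p2 : p * (-(κ * x) ^ 2 + p ^ 2) = 0 := by
    have : 8 * (Complex.I * (κ * x)) * (p * (-(κ * x) ^ 2 + p ^ 2)) = 0 := by
      linear_combination a4 - a3 - 8 * Complex.I * (κ * x) ^ 3 * p * hI2
    rcases mul_eq_zero.mp this with h1 | h1
    · exact absurd h1 (mul_ne_zero (by norm_num) (mul_ne_zero Complex.I_ne_zero hkx))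
    · exact h1
  have p0 : p = 0 := by
    have : (2 * (κ * x) ^ 2) * p = 0 := by linear_combination p1 - p2
    rcases mul_eq_zero.mp this with h1 | h1
    · exact absurd h1 (mul_ne_zero two_ne_zero (pow_ne_zero 2 hkx))
    · exact h1
  subst p0
  -- γ = κ^4
  have hg : γ = κ ^ 4 := by
    have : s * (γ - κ ^ 4) = 0 := by
      linear_combination a1 + κ ^ 4 * hx4
    rcases mul_eq_zero.mp this with h1 | h1
    · exact absurd h1 hs0
    · linear_combination h1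
  -- α = κ^2
  have ha : α = κ ^ 2 := by
    have c1 : κ / (4 * x) * x = κ / 4 := by field_simp
    have : 2 * (κ * x) ^ 2 * (α - κ ^ 2) = 0 := by
      have d1 : κ / (4 * (-x)) = -(κ / (4 * x)) := by
        rw [mul_neg, div_neg]
      rw [d1] at b2
      linear_combination b1 + b2 + 8 * κ ^ 3 * x ^ 2 * c1
    rcases mul_eq_zero.mp this with h1 | h1
    · exact absurd h1 (mul_ne_zero two_ne_zero (pow_ne_zero 2 hkx))
    · linear_combination h1
  have h1 : α = 1 := by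
    have : α ^ 4 * (α - 1) = 0 := by
      have e1 : γ = α ^ 2 := by rw [hg, ha]; ring
      rw [e1] at hγ
      linear_combination -hγ
    rcases mul_eq_zero.mp this with h1 | h1
    · exact absurd h1 (pow_ne_zero 4 hα)
    · linear_combination h1
  have h2 : γ ^ 2 = 1 := by rw [hγ, h1]; ring
  rw [← hγc, h2, one_mul]

end Pool.H64.ISO
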