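import Pool.Agent.H64.ISO.Base

/-!
# The induced map of the curves is `(a, b) ↦ (α a, γ b)`
-/

set_option autoImplicit false

namespace Pool.H64.ISO

open MvPolynomial

/-- a polynomial function vanishing at the two points with `a = 0` is divisible by `a` -/
theorem div_fst {c β : ℂ} (hβ0 : β ≠ 0) (hβ : β ^ 2 = -c) {χ : ℂ → ℂ → ℂ} (r : Reg c χ)
    (h1 : χ 0 β = 0) (h2 : χ 0 (-β) = 0) :
    ∃ W : ℂ → ℂ → ℂ, Reg c W ∧ (∃ A B : Polynomial ℂ, ∀ a b, W a b = A.eval a + b * B.eval a) ∧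
      ∀ a b : ℂ, a ^ 5 - b ^ 2 = c → χ a b = a * W a b := by
  obtain ⟨A, B, h⟩ := r
  have e1 := h 0 β (by rw [hβ]; ring)
  have e2 := h 0 (-β) (by rw [neg_sq, hβ]; ring)
  rw [h1] at e1
  rw [h2] at e2
  have hA : A.eval 0 = 0 := by linear_combination (-e1 - e2) / 2
  have hB : B.eval 0 = 0 := by
    have : β * B.eval 0 = 0 := by linear_combination (-e1 + e2) / 2
    rcases mul_eq_zero.mp this with h3 | h3
    · exact absurd h3 hβ0
    · exact h3
  have dA : Polynomial.X ∣ A :=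
    Polynomial.X_dvd_iff.mpr (by rw [Polynomial.coeff_zero_eq_eval_zero, hA])
  have dB : Polynomial.X ∣ B :=
    Polynomial.X_dvd_iff.mpr (by rw [Polynomial.coeff_zero_eq_eval_zero, hB])
  obtain ⟨A1, hA1⟩ := dA
  obtain ⟨B1, hB1⟩ := dB
  refine ⟨fun a b => A1.eval a + b * B1.eval a, ⟨A1, B1, fun a b _ => rfl⟩,
    ⟨A1, B1, fun a b => rfl⟩, fun a b hab => ?_⟩
  rw [h a b hab, hA1, hB1]
  simp only [Polynomial.eval_mul, Polynomial.eval_X]
  ring

/-- the function `y ∘ f` is `α y` -/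
theorem fst_scale {c d : ℂ} (hc : c ≠ 0) (hd : d ≠ 0) {f g : Fin 3 → MvPolynomial (Fin 3) ℂ}
    (h : Iso c d f g) : ∃ α : ℂ, α ≠ 0 ∧ ∀ v : Fin 3 → ℂ, eval v P = c → ap f v 2 = α * v 2 := by
  have key : ∀ {c d : ℂ} (_ : c ≠ 0) (_ : d ≠ 0) {f g : Fin 3 → MvPolynomial (Fin 3) ℂ}
      (_ : Iso c d f g), ∃ W : ℂ → ℂ → ℂ, Reg c W ∧
        (∃ A B : Polynomial ℂ, ∀ a b, W a b = A.eval a + b * B.eval a) ∧
        ∀ v : Fin 3 → ℂ, eval v P = c → ap f v 2 = v 2 * W (v 2) (Q v) := by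
    intro c d hc hd f g h
    obtain ⟨χ, ψ, r1, _, hm⟩ := base_map hc hd h.maps
    obtain ⟨β, hβ⟩ := exists_sq (-c)
    have hβ0 : β ≠ 0 := by
      rintro rfl
      apply hc
      linear_combination hβ
    have hz : ∀ β : ℂ, β ^ 2 = -c → χ 0 β = 0 := by
      intro β hβ
      obtain ⟨x, hx⟩ := IsAlgClosed.exists_pow_nat_eq β (n := 4) (by norm_num)
      have hx8 : x ^ 8 = -c := by rw [← hβ, ← hx]; ring
      have hv : eval ![0, x, 0] P = c := eval_M hx8 0
      have h0 : (![0, x, 0] : Fin 3 → ℂ) 2 = 0 := by simp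
      have h1 := special hc hd h _ hv h0
      rw [(hm _ hv).1, Q_zero h0, h0] at h1
      rw [← hx]
      simpa using h1
    obtain ⟨W, rW, sW, hW⟩ := div_fst hβ0 hβ r1 (hz β hβ) (hz (-β) (by rw [neg_sq, hβ]))
    refine ⟨W, rW, sW, fun v hv => ?_⟩
    rw [(hm v hv).1, hW _ _ (by rw [← eval_P, hv])]
  obtain ⟨W, rW, _, hW⟩ := key hc hd h
  obtain ⟨W', _, ⟨A', B', sW'⟩, hW'⟩ := key hd hc h.symm
  obtain ⟨χ, ψ, r1, r2, hm⟩ := base_map hc hd h.maps
  have rC : Reg c (fun a b => A'.eval (χ a b) + ψ a b * B'.eval (χ a b)) :=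
    (r1.comp A').add (r2.mul (r1.comp B'))
  obtain ⟨α, hα0, hα⟩ := unit_const rW rC (fun a b hab ha => by
    have hv : eval (E a b 0) P = c := by rw [eval_E ha, hab]
    have e2 : E a b 0 2 = a := by simp [E]
    have eQ : Q (E a b 0) = b := Q_E ha b 0
    have k1 := hW _ hv
    have k2 := hW' _ (h.1 _ hv).1
    have k3 := hm _ hv
    rw [(h.1 _ hv).2, sW', k3.1, k3.2, e2, eQ] at k2
    rw [e2, eQ, k3.1, e2, eQ] at k1
    have k4 : a * (W a b * (A'.eval (χ a b) + ψ a b * B'.eval (χ a b))) = a * 1 := by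
      rw [mul_one, ← mul_assoc, ← k1]
      exact k2.symm
    exact mul_left_cancel₀ ha k4)
  refine ⟨α, hα0, fun v hv => ?_⟩
  rw [hW v hv, hα _ _ (by rw [← eval_P, hv])]
  ring

/-- the function `Q ∘ f` is `γ Q` -/
theorem snd_scale {c d : ℂ} (hc : c ≠ 0) (hd : d ≠ 0) {f g : Fin 3 → MvPolynomial (Fin 3) ℂ}
    (h : Iso c d f g) : ∃ α γ : ℂ, α ≠ 0 ∧ γ ^ 2 = α ^ 5 ∧ γ ^ 2 * c = d ∧
      ∀ v : Fin 3 → ℂ, eval v P = c → ap f v 2 = α * v 2 ∧ Q (ap f v) = γ * Q v := by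
  obtain ⟨α, hα0, hα⟩ := fst_scale hc hd h
  obtain ⟨χ, ψ, _, r2, hm⟩ := base_map hc hd h.maps
  obtain ⟨A, B, hAB⟩ := r2
  have hne : α ^ 5 ≠ 0 := pow_ne_zero 5 hα0
  obtain ⟨e1, e2⟩ := uniq (c := c) (A ^ 2 + (Polynomial.X ^ 5 - Polynomial.C c) * B ^ 2)
    (2 * (A * B)) (Polynomial.C (α ^ 5) * Polynomial.X ^ 5 - Polynomial.C d) 0
    (fun a b hab ha => by
      have hv : eval (E a b 0) P = c := by rw [eval_E ha, hab]
      have e2 : E a b 0 2 = a := by simp [E]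
      have eQ : Q (E a b 0) = b := Q_E ha b 0
      have k1 := (h.1 _ hv).1
      rw [eval_P, hα _ hv, (hm _ hv).2, e2, eQ, hAB a b hab] at k1
      simp only [Polynomial.eval_add, Polynomial.eval_mul, Polynomial.eval_sub,
        Polynomial.eval_pow, Polynomial.eval_X, Polynomial.eval_C, Polynomial.eval_zero,
        Polynomial.eval_ofNat]
      have hb : b ^ 2 = a ^ 5 - c := by linear_combination -hab
      linear_combination -k1 - (B.eval a) ^ 2 * hb)
  have hAB0 : A = 0 ∨ B = 0 := by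
    have : (2 : Polynomial ℂ) ≠ 0 := two_ne_zero
    rcases mul_eq_zero.mp e2 with h3 | h3
    · exact absurd h3 this
    · exact mul_eq_zero.mp h3
  have hdeg : (Polynomial.C (α ^ 5) * Polynomial.X ^ 5 - Polynomial.C d).natDegree = 5 := by
    rw [Polynomial.natDegree_sub_C, Polynomial.natDegree_C_mul_X_pow 5 _ hne]
  rcases hAB0 with hA | hB
  · subst hA
    have hB0 : B ≠ 0 := by
      rintro rfl
      rw [← e1] at hdeg
      simp at hdeg
    have h5 : ((Polynomial.X ^ 5 - Polynomial.C c) * B ^ 2 : Polynomial ℂ).natDegree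
        = 5 + 2 * B.natDegree := by
      rw [Polynomial.natDegree_mul (Polynomial.X_pow_sub_C_ne_zero (by norm_num) c)
        (pow_ne_zero 2 hB0), Polynomial.natDegree_X_pow_sub_C, Polynomial.natDegree_pow]
    have e3 : (0 : Polynomial ℂ) ^ 2 + (Polynomial.X ^ 5 - Polynomial.C c) * B ^ 2
        = (Polynomial.X ^ 5 - Polynomial.C c) * B ^ 2 := by ring
    rw [e3] at e1
    rw [e1, hdeg] at h5
    have h6 : B.natDegree = 0 := by omega
    obtain ⟨γ, hγ⟩ : ∃ k, B = Polynomial.C k :=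
      ⟨B.coeff 0, Polynomial.eq_C_of_natDegree_eq_zero h6⟩
    subst hγ
    have z0 := congrArg (Polynomial.eval 0) e1
    have z1 := congrArg (Polynomial.eval 1) e1
    simp only [Polynomial.eval_mul, Polynomial.eval_sub, Polynomial.eval_pow, Polynomial.eval_X,
      Polynomial.eval_C] at z0 z1
    refine ⟨α, γ, hα0, by linear_combination z1 - z0, by linear_combination -z0,
      fun v hv => ⟨hα v hv, ?_⟩⟩
    rw [(hm v hv).2, hAB _ _ (by rw [← eval_P, hv])]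
    simp
    ring
  · exfalso
    subst hB
    have e3 : A ^ 2 + (Polynomial.X ^ 5 - Polynomial.C c) * (0 : Polynomial ℂ) ^ 2 = A ^ 2 := by
      ring
    rw [e3] at e1
    rw [← e1, Polynomial.natDegree_pow] at hdeg
    omega

end Pool.H64.ISO
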